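import Mathlib

/-!
# MP_8bf717, lower bound: statement of Lemma P (helper37's blueprint, section 3)
-/

set_option autoImplicit false

open MeasureTheory Set

namespace Pool.Agent.Helper88.PH

/-- Lemma P: a roof `r` and a floor `-D`, each with two pieces and a kink over `[0, 1]`, around the
affine-regular pentagon with vertices `(0,0), (τ,1), (1,0), (φ(1-τ),-φ), (1-φτ,-φ)`; walls of equal
height at `XL ≤ 0` and `XR ≥ 1`. -/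
def LemmaP : Prop :=
  ∀ τ : ℝ, 2 - Real.goldenRatio ≤ τ → τ ≤ Real.goldenRatio - 1 →
  ∀ p1 a1 p2 a2 q1 b1 q2 b2 x2 x5 XL XR : ℝ,
    0 ≤ x2 → x2 ≤ 1 → p1 + a1 * x2 = p2 + a2 * x2 → a2 ≤ a1 →
    0 ≤ x5 → x5 ≤ 1 → q1 + b1 * x5 = q2 + b2 * x5 → b2 ≤ b1 →
    (∀ x ∈ ({0, 1} : Set ℝ), 0 ≤ min (p1 + a1 * x) (p2 + a2 * x)) →
    1 ≤ min (p1 + a1 * τ) (p2 + a2 * τ) →
    (∀ x ∈ ({0, 1} : Set ℝ), 0 ≤ min (q1 + b1 * x) (q2 + b2 * x)) →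
    (∀ x ∈ ({1 - Real.goldenRatio * τ, Real.goldenRatio * (1 - τ)} : Set ℝ),
      Real.goldenRatio ≤ min (q1 + b1 * x) (q2 + b2 * x)) →
    XL ≤ 0 → 1 ≤ XR →
    (p1 + a1 * XL) + (q1 + b1 * XL) = (p2 + a2 * XR) + (q2 + b2 * XR) →
    0 ≤ (p1 + a1 * XL) + (q1 + b1 * XL) →
    1 / 2 + Real.goldenRatio ≤
      ∫ x in XL..XR, (min (p1 + a1 * x) (p2 + a2 * x) + min (q1 + b1 * x) (q2 + b2 * x))

end Pool.Agent.Helper88.PH
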