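import Pool.Agent.Helper37.PH.Defs
import Pool.Agent.Helper88.PH.StP

/-!
# MP_8bf717, lower bound: interfaces of sections 0, 1, 2
-/

set_option autoImplicit false

open MeasureTheory Set

namespace Pool.Agent.Helper88.PH

open Pool.Agent.Helper37.PH

/-- The normalised affine-regular pentagon. -/
noncomputable def pent (τ : ℝ) : Set (ℝ × ℝ) :=
  convexHull ℝ {((0 : ℝ), (0 : ℝ)), (1, 0), (τ, 1),
    (1 - Real.goldenRatio * τ, -Real.goldenRatio),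
    (Real.goldenRatio * (1 - τ), -Real.goldenRatio)}

/-- The lower bound for normalised pentagons and hexagons whose walls (sides `0` and `3`) are
vertical. -/
def NormBound : Prop :=
  ∀ τ : ℝ, 2 - Real.goldenRatio ≤ τ → τ ≤ Real.goldenRatio - 1 →
  ∀ (v : Fin 6 → ℝ × ℝ) (R : Set (ℝ × ℝ)), IsHexagon v →
    (v 0).1 = (v 1).1 → (v 3).1 = (v 4).1 → |(v 1).2 - (v 0).2| = |(v 4).2 - (v 3).2| →
    IsCompact R → frontier R = ⋃ i, side v i → pent τ ⊆ R →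
    ENNReal.ofReal (1 / 2 + Real.goldenRatio) ≤ volume R

/-- A roof `T` and a floor `-D` over `(0, 1)`, and the lower bound `M`. -/
structure Data (T D : ℝ → ℝ) (M : ℝ) : Prop where
  cT : Continuous T
  cD : Continuous D
  pos : ∀ x ∈ Ioo (0 : ℝ) 1, 0 < T x + D x
  sT : ∀ X ∈ Ioo (0 : ℝ) 1, ∃ g : ℝ, ∀ x ∈ Ioo (0 : ℝ) 1, T x ≤ T X + g * (x - X)
  sD : ∀ X ∈ Ioo (0 : ℝ) 1, ∃ g : ℝ, ∀ x ∈ Ioo (0 : ℝ) 1, D x ≤ D X + g * (x - X)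
  s1 : M ≤ T (1 / 2) + ∫ x in (0 : ℝ)..1, D x
  s2 : M ≤ (∫ x in (0 : ℝ)..1, T x) + D (1 / 2)
  p : ∀ p1 a1 p2 a2 q1 b1 q2 b2 x2 x5 XL XR : ℝ,
    0 ≤ x2 → x2 ≤ 1 → p1 + a1 * x2 = p2 + a2 * x2 → a2 ≤ a1 →
    0 ≤ x5 → x5 ≤ 1 → q1 + b1 * x5 = q2 + b2 * x5 → b2 ≤ b1 →
    (∀ x ∈ Ioo (0 : ℝ) 1, T x ≤ min (p1 + a1 * x) (p2 + a2 * x)) →
    (∀ x ∈ Ioo (0 : ℝ) 1, D x ≤ min (q1 + b1 * x) (q2 + b2 * x)) →
    XL ≤ 0 → 1 ≤ XR →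
    (p1 + a1 * XL) + (q1 + b1 * XL) = (p2 + a2 * XR) + (q2 + b2 * XR) →
    0 ≤ (p1 + a1 * XL) + (q1 + b1 * XL) →
    M ≤ ∫ x in XL..XR, (min (p1 + a1 * x) (p2 + a2 * x) + min (q1 + b1 * x) (q2 + b2 * x))

/-- A configuration: pentagon data, hexagon with vertical walls, region. -/
structure Cfg (T D : ℝ → ℝ) (M : ℝ) (v : Fin 6 → ℝ × ℝ) (R : Set (ℝ × ℝ)) : Prop where
  dat : Data T D M
  hex : IsHexagon v
  w0 : (v 0).1 = (v 1).1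
  w3 : (v 3).1 = (v 4).1
  len : |(v 1).2 - (v 0).2| = |(v 4).2 - (v 3).2|
  cpt : IsCompact R
  fr : frontier R = ⋃ i, side v i
  sub : ∀ q : ℝ × ℝ, 0 < q.1 → q.1 < 1 → -D q.1 < q.2 → q.2 < T q.1 → q ∈ R

end Pool.Agent.Helper88.PH
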