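import Pool.Agent.Helper88.PH.Main
import Pool.Agent.Helper61.PH.LemmaP
import Pool.Agent.Helper61.PH.DataPent
import Pool.Agent.Helper61.PH.HLower

/-!
# MP_8bf717, lower bound: assembly
-/

set_option autoImplicit false

open MeasureTheory Set

namespace Pool.Agent.Helper88.PH

open Pool.Agent.Helper37.PH

theorem normBound : NormBound := by
  intro τ h1 h2 v R hex w0 w3 len cpt fr sub
  obtain ⟨T, D, hdat, hU⟩ :=
    Pool.Agent.Helper61.PH.data_pent Pool.Agent.Helper61.PH.lemmaP τ h1 h2
  exact Cfg.bound (T := T) (D := D) (v := v)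
    { dat := hdat, hex := hex, w0 := w0, w3 := w3, len := len, cpt := cpt, fr := fr,
      sub := fun q q0 q1 q2 q3 => sub (hU q q0 q1 q2 q3) }

/-- the lower bound -/
theorem H_ge : ENNReal.ofReal ((5 + 3 * Real.sqrt 5) / 10) ≤ H :=
  Pool.Agent.Helper61.PH.H_lower normBound

end Pool.Agent.Helper88.PH
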