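import Pool.Agent.Helper88.PH.Sym

/-!
# MP_8bf717, lower bound: sides above and below the pentagon, separators
-/

set_option autoImplicit false

open MeasureTheory Set

namespace Pool.Agent.Helper88.PH

open Pool.Agent.Helper37.PH

/-- the side `i` has a point above the strip part of the pentagon -/
def Ab (T : ℝ → ℝ) (v : Fin 6 → ℝ × ℝ) (i : Fin 6) : Prop :=
  ∃ q ∈ side v i, 0 < q.1 ∧ q.1 < 1 ∧ T q.1 ≤ q.2

/-- the side `i` has a point below the strip part of the pentagon -/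
def Be (D : ℝ → ℝ) (v : Fin 6 → ℝ × ℝ) (i : Fin 6) : Prop :=
  ∃ q ∈ side v i, 0 < q.1 ∧ q.1 < 1 ∧ q.2 ≤ -D q.1

variable {T D : ℝ → ℝ} {M : ℝ} {v : Fin 6 → ℝ × ℝ} {R : Set (ℝ × ℝ)}

theorem ab_fl {i : Fin 6} : Ab D (fun i => flH (v i)) i ↔ Be D v i := by
  constructor
  · rintro ⟨q, hq, h1, h2, h3⟩
    rw [side_fl] at hq
    exact ⟨flH q, hq, h1, h2, by simp; linarith⟩
  · rintro ⟨q, hq, h1, h2, h3⟩
    refine ⟨flH q, ?_, h1, h2, by simp; linarith⟩
    rw [side_fl]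
    simpa using hq

theorem be_fl {i : Fin 6} : Be T (fun i => flH (v i)) i ↔ Ab T v i := by
  constructor
  · rintro ⟨q, hq, h1, h2, h3⟩
    rw [side_fl] at hq
    exact ⟨flH q, hq, h1, h2, by simp at h3 ⊢; linarith⟩
  · rintro ⟨q, hq, h1, h2, h3⟩
    refine ⟨flH q, ?_, h1, h2, by simp; linarith⟩
    rw [side_fl]
    simpa using hq

theorem ab_rev {i k : Fin 6} : Ab T (fun i => v (k - i)) i ↔ Ab T v (k - i - 1) := by
  unfold Ab
  rw [side_rev]

theorem be_rev {i k : Fin 6} : Be D (fun i => v (k - i)) i ↔ Be D v (k - i - 1) := by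
  unfold Be
  rw [side_rev]

/-- the open region of the pentagon over the strip avoids the frontier -/
theorem Cfg.notFr (h : Cfg T D M v R) {q : ℝ × ℝ} (h0 : 0 < q.1) (h1 : q.1 < 1)
    (h2 : -D q.1 < q.2) (h3 : q.2 < T q.1) : q ∉ frontier R := by
  have hU : IsOpen {q : ℝ × ℝ | 0 < q.1 ∧ q.1 < 1 ∧ -D q.1 < q.2 ∧ q.2 < T q.1} := by
    have c1 : Continuous fun q : ℝ × ℝ => q.1 := continuous_fst
    have c2 : Continuous fun q : ℝ × ℝ => q.2 := continuous_snd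
    have cT : Continuous fun q : ℝ × ℝ => T q.1 := h.dat.cT.comp c1
    have cD : Continuous fun q : ℝ × ℝ => -D q.1 := (h.dat.cD.comp c1).neg
    exact (isOpen_lt continuous_const c1).inter ((isOpen_lt c1 continuous_const).inter
      ((isOpen_lt cD c2).inter (isOpen_lt c2 cT)))
  have hq : q ∈ interior R := by
    rw [mem_interior]
    refine ⟨_, ?_, hU, ⟨h0, h1, h2, h3⟩⟩
    rintro p ⟨p0, p1, p2, p3⟩
    exact h.sub p p0 p1 p2 p3
  rw [h.cpt.isClosed.frontier_eq]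
  exact fun hh => hh.2 hq

theorem Cfg.side_fr (h : Cfg T D M v R) {i : Fin 6} {q : ℝ × ℝ} (hq : q ∈ side v i) :
    q ∈ frontier R := by
  rw [h.fr]
  exact mem_iUnion.mpr ⟨i, hq⟩

theorem Cfg.dich (h : Cfg T D M v R) {i : Fin 6} {q : ℝ × ℝ} (hq : q ∈ side v i)
    (h0 : 0 < q.1) (h1 : q.1 < 1) : T q.1 ≤ q.2 ∨ q.2 ≤ -D q.1 := by
  by_contra hc
  push Not at hc
  exact h.notFr h0 h1 hc.2 hc.1 (h.side_fr hq)

theorem Cfg.notBoth (h : Cfg T D M v R) {i : Fin 6} (ha : Ab T v i) (hb : Be D v i) : False := by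
  obtain ⟨p, hp, p0, p1, p2⟩ := ha
  obtain ⟨q, hq, q0, q1, q2⟩ := hb
  have hseg : ∀ t ∈ Icc (0 : ℝ) 1, (1 - t) • p + t • q ∈ side v i := by
    intro t ht
    exact (convex_segment (v i) (v (i + 1))) hp hq (by linarith [ht.2]) ht.1 (by ring)
  have hx : ∀ t ∈ Icc (0 : ℝ) 1, ((1 - t) • p + t • q).1 ∈ Ioo (0 : ℝ) 1 := by
    intro t ht
    have := (convex_Ioo (0 : ℝ) 1) (⟨p0, p1⟩ : p.1 ∈ Ioo (0 : ℝ) 1)
      (⟨q0, q1⟩ : q.1 ∈ Ioo (0 : ℝ) 1) (a := 1 - t) (b := t) (by linarith [ht.2]) ht.1 (by ring)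
    simpa using this
  have hc : ContinuousOn (fun t : ℝ => ((1 - t) • p + t • q).2
      - (T ((1 - t) • p + t • q).1 - D ((1 - t) • p + t • q).1) / 2) (Icc 0 1) := by
    have cT := h.dat.cT
    have cD := h.dat.cD
    apply Continuous.continuousOn
    fun_prop
  have h0 : (0 : ℝ) ∈ Icc ((fun t : ℝ => ((1 - t) • p + t • q).2
      - (T ((1 - t) • p + t • q).1 - D ((1 - t) • p + t • q).1) / 2) 1)
      ((fun t : ℝ => ((1 - t) • p + t • q).2
      - (T ((1 - t) • p + t • q).1 - D ((1 - t) • p + t • q).1) / 2) 0) := by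
    simp only [sub_self, zero_smul, one_smul, zero_add, sub_zero, add_zero]
    have hp' := h.dat.pos p.1 ⟨p0, p1⟩
    have hq' := h.dat.pos q.1 ⟨q0, q1⟩
    constructor <;> linarith
  obtain ⟨t, ht, ht0⟩ := intermediate_value_Icc' (zero_le_one' ℝ) hc h0
  simp only at ht0
  have hx' := hx t ht
  have hpos := h.dat.pos _ hx'
  rcases h.dich (hseg t ht) hx'.1 hx'.2 with h5 | h5 <;> linarith

theorem Cfg.ab_all (h : Cfg T D M v R) {i : Fin 6} (ha : Ab T v i) {q : ℝ × ℝ}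
    (hq : q ∈ side v i) (h0 : 0 < q.1) (h1 : q.1 < 1) : T q.1 ≤ q.2 := by
  rcases h.dich hq h0 h1 with h2 | h2
  · exact h2
  · exact absurd (h.notBoth ha ⟨q, hq, h0, h1, h2⟩) id

theorem Cfg.be_all (h : Cfg T D M v R) {i : Fin 6} (hb : Be D v i) {q : ℝ × ℝ}
    (hq : q ∈ side v i) (h0 : 0 < q.1) (h1 : q.1 < 1) : q.2 ≤ -D q.1 := by
  rcases h.dich hq h0 h1 with h2 | h2
  · exact absurd (h.notBoth ⟨q, hq, h0, h1, h2⟩ hb) id
  · exact h2

/-- vertical rays meet the frontier above -/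
theorem Cfg.cover (h : Cfg T D M v R) {x : ℝ} (h0 : 0 < x) (h1 : x < 1) :
    ∃ i y, (x, y) ∈ side v i ∧ T x ≤ y := by
  set m := (T x - D x) / 2 with hm
  have hpos := h.dat.pos x ⟨h0, h1⟩
  have hmR : (x, m) ∈ R := h.sub (x, m) h0 h1 (by simp only; linarith) (by simp only; linarith)
  have hcS : IsCompact (R ∩ {q : ℝ × ℝ | q.1 = x}) :=
    h.cpt.inter_right (isClosed_eq continuous_fst continuous_const)
  obtain ⟨p, hp, hmax⟩ := hcS.exists_isMaxOn ⟨(x, m), hmR, rfl⟩ continuous_snd.continuousOn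
  have hp1 : p.1 = x := hp.2
  have hpm : m ≤ p.2 := hmax (⟨hmR, rfl⟩ : (x, m) ∈ R ∩ {q : ℝ × ℝ | q.1 = x})
  have hpf : p ∈ frontier R := by
    rw [h.cpt.isClosed.frontier_eq]
    refine ⟨hp.1, ?_⟩
    intro hi
    rw [mem_interior_iff_mem_nhds] at hi
    have hcont : Continuous fun t : ℝ => ((p.1, p.2 + t) : ℝ × ℝ) := by fun_prop
    have hev : ∀ᶠ t in nhds (0 : ℝ), ((p.1, p.2 + t) : ℝ × ℝ) ∈ R := by
      apply hcont.continuousAt.eventually_mem
      simpa using hi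
    have hev2 : ∀ᶠ t in nhdsWithin (0 : ℝ) (Ioi 0), ((p.1, p.2 + t) : ℝ × ℝ) ∈ R :=
      hev.filter_mono nhdsWithin_le_nhds
    obtain ⟨t, ht, ht0⟩ := (hev2.and self_mem_nhdsWithin).exists
    have ht0' : (0 : ℝ) < t := ht0
    have := hmax (⟨ht, hp1⟩ : ((p.1, p.2 + t) : ℝ × ℝ) ∈ R ∩ {q : ℝ × ℝ | q.1 = x})
    have h5 : p.2 + t ≤ p.2 := this
    linarith
  rw [h.fr] at hpf
  obtain ⟨i, hi⟩ := mem_iUnion.mp hpf
  refine ⟨i, p.2, ?_, ?_⟩
  · rw [← hp1]
    exact hi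
  · have hx0 : 0 < p.1 := by rw [hp1]; exact h0
    have hx1 : p.1 < 1 := by rw [hp1]; exact h1
    rcases h.dich hi hx0 hx1 with h5 | h5
    · rw [hp1] at h5
      exact h5
    · rw [hp1] at h5
      linarith

theorem Cfg.coverB (h : Cfg T D M v R) {x : ℝ} (h0 : 0 < x) (h1 : x < 1) :
    ∃ i y, (x, y) ∈ side v i ∧ y ≤ -D x := by
  obtain ⟨i, y, hy, h2⟩ := h.flip.cover h0 h1
  rw [side_fl] at hy
  exact ⟨i, -y, hy, by linarith⟩

/-- the separator principle -/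
theorem Cfg.sep (h : Cfg T D M v R) (c s : ℝ) (h12 : T (1 / 2) ≤ c + s * (1 / 2))
    (hm : ∀ i, ∀ q ∈ side v i, 0 < q.1 → q.1 < 1 → T q.1 ≤ q.2 → c + s * q.1 ≤ q.2) :
    ENNReal.ofReal M ≤ volume R := by
  have cT := h.dat.cT
  have cD := h.dat.cD
  have hsub : ∀ q : ℝ × ℝ, 0 < q.1 → q.1 < 1 → -D q.1 < q.2 →
      q.2 < max (T q.1) (c + s * q.1) → q ∈ R := by
    intro q h0 h1 h2 h3
    rcases lt_max_iff.mp h3 with h4 | h4
    · exact h.sub q h0 h1 h2 h4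
    · by_cases h5 : q.2 < T q.1
      · exact h.sub q h0 h1 h2 h5
      · have hpos := h.dat.pos q.1 ⟨h0, h1⟩
        have hC : IsPreconnected ((fun y : ℝ => ((q.1, y) : ℝ × ℝ)) '' Icc ((T q.1 - D q.1) / 2)
            q.2) := by
          apply isPreconnected_Icc.image
          fun_prop
        have h6 : (fun y : ℝ => ((q.1, y) : ℝ × ℝ)) '' Icc ((T q.1 - D q.1) / 2) q.2 ⊆ R := by
          apply pre_sub hC h.cpt.isClosed
          · rw [Set.disjoint_left]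
            rintro _ ⟨y, hy, rfl⟩ hf
            have hy1 : T q.1 ≤ y := by
              by_contra hy1
              push Not at hy1
              exact h.notFr (q := (q.1, y)) h0 h1 (by simp only; linarith [hy.1]) hy1 hf
            rw [h.fr] at hf
            obtain ⟨i, hi⟩ := mem_iUnion.mp hf
            have := hm i _ hi h0 h1 hy1
            simp only at this
            linarith [hy.2]
          · refine ⟨(q.1, (T q.1 - D q.1) / 2), ⟨_, ⟨le_refl _, by linarith⟩, rfl⟩, ?_⟩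
            exact h.sub _ h0 h1 (by simp only; linarith) (by simp only; linarith)
        exact h6 ⟨q.2, ⟨by linarith, le_refl _⟩, rfl⟩
  have hcm : Continuous fun x => max (T x) (c + s * x) := by fun_prop
  refine le_trans ?_ (vol_le (f := fun x => -D x) (g := fun x => max (T x) (c + s * x)) cD.neg hcm
    zero_le_one hsub)
  apply ENNReal.ofReal_le_ofReal
  have h7 : ∫ x in (0 : ℝ)..1, ((c + s * x) + D x) ≤
      ∫ x in (0 : ℝ)..1, (max (T x) (c + s * x) - -D x) := by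
    apply intervalIntegral.integral_mono_on zero_le_one
    · apply Continuous.intervalIntegrable
      fun_prop
    · apply Continuous.intervalIntegrable
      fun_prop
    · intro x _
      linarith [le_max_right (T x) (c + s * x)]
  have h8 : ∫ x in (0 : ℝ)..1, ((c + s * x) + D x) = (c + s * (1 / 2)) + ∫ x in (0 : ℝ)..1, D x := by
    rw [intervalIntegral.integral_add]
    · congr 1
      rw [intervalIntegral.integral_add, intervalIntegral.integral_const_mul]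
      · simp
      · simp
      · apply Continuous.intervalIntegrable
        fun_prop
    · apply Continuous.intervalIntegrable
      fun_prop
    · exact cD.intervalIntegrable _ _
  linarith [h.dat.s1]

/-- the principle for the case of Lemma P -/
theorem Cfg.two_piece (h : Cfg T D M v R) (p1 a1 p2 a2 q1 b1 q2 b2 x2 x5 XL XR : ℝ)
    (e1 : 0 ≤ x2) (e2 : x2 ≤ 1) (e3 : p1 + a1 * x2 = p2 + a2 * x2) (e4 : a2 ≤ a1)
    (e5 : 0 ≤ x5) (e6 : x5 ≤ 1) (e7 : q1 + b1 * x5 = q2 + b2 * x5) (e8 : b2 ≤ b1)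
    (e9 : ∀ x ∈ Ioo (0 : ℝ) 1, T x ≤ min (p1 + a1 * x) (p2 + a2 * x))
    (e10 : ∀ x ∈ Ioo (0 : ℝ) 1, D x ≤ min (q1 + b1 * x) (q2 + b2 * x))
    (e11 : XL ≤ 0) (e12 : 1 ≤ XR)
    (e13 : (p1 + a1 * XL) + (q1 + b1 * XL) = (p2 + a2 * XR) + (q2 + b2 * XR))
    (e14 : 0 ≤ (p1 + a1 * XL) + (q1 + b1 * XL))
    (hW : ∀ i, ∀ q ∈ side v i, XL < q.1 → q.1 < XR → q.2 < p1 + a1 * q.1 → q.2 < p2 + a2 * q.1 →
      -(q1 + b1 * q.1) < q.2 → -(q2 + b2 * q.1) < q.2 → False) :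
    ENNReal.ofReal M ≤ volume R := by
  have h1 := h.dat.p p1 a1 p2 a2 q1 b1 q2 b2 x2 x5 XL XR e1 e2 e3 e4 e5 e6 e7 e8 e9 e10 e11 e12
    e13 e14
  set W : Set (ℝ × ℝ) := {q | XL < q.1 ∧ q.1 < XR ∧ q.2 < p1 + a1 * q.1 ∧ q.2 < p2 + a2 * q.1 ∧
      -(q1 + b1 * q.1) < q.2 ∧ -(q2 + b2 * q.1) < q.2} with hWd
  have hWc : Convex ℝ W := by
    have h2 : W = {q : ℝ × ℝ | 0 < 1 * q.1 + 0 * q.2 + -XL} ∩
        ({q : ℝ × ℝ | 0 < (-1) * q.1 + 0 * q.2 + XR} ∩
        ({q : ℝ × ℝ | 0 < a1 * q.1 + (-1) * q.2 + p1} ∩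
        ({q : ℝ × ℝ | 0 < a2 * q.1 + (-1) * q.2 + p2} ∩
        ({q : ℝ × ℝ | 0 < b1 * q.1 + 1 * q.2 + q1} ∩
        {q : ℝ × ℝ | 0 < b2 * q.1 + 1 * q.2 + q2})))) := by
      ext q
      constructor
      · rintro ⟨k1, k2, k3, k4, k5, k6⟩
        refine ⟨?_, ?_, ?_, ?_, ?_, ?_⟩ <;> show (0 : ℝ) < _ <;> linarith
      · rintro ⟨k1, k2, k3, k4, k5, k6⟩
        have k1' : 0 < 1 * q.1 + 0 * q.2 + -XL := k1
        have k2' : 0 < (-1) * q.1 + 0 * q.2 + XR := k2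
        have k3' : 0 < a1 * q.1 + (-1) * q.2 + p1 := k3
        have k4' : 0 < a2 * q.1 + (-1) * q.2 + p2 := k4
        have k5' : 0 < b1 * q.1 + 1 * q.2 + q1 := k5
        have k6' : 0 < b2 * q.1 + 1 * q.2 + q2 := k6
        refine ⟨?_, ?_, ?_, ?_, ?_, ?_⟩ <;> linarith
    rw [h2]
    exact (conv_lin _ _ _).inter ((conv_lin _ _ _).inter ((conv_lin _ _ _).inter
      ((conv_lin _ _ _).inter ((conv_lin _ _ _).inter (conv_lin _ _ _)))))
  have hWR : W ⊆ R := by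
    apply pre_sub hWc.isPreconnected h.cpt.isClosed
    · rw [Set.disjoint_left]
      rintro q ⟨k1, k2, k3, k4, k5, k6⟩ hf
      rw [h.fr] at hf
      obtain ⟨i, hi⟩ := mem_iUnion.mp hf
      exact hW i q hi k1 k2 k3 k4 k5 k6
    · have hh : ((1 : ℝ) / 2) ∈ Ioo (0 : ℝ) 1 := by constructor <;> norm_num
      have hpos := h.dat.pos _ hh
      have hT := e9 _ hh
      have hD := e10 _ hh
      rw [le_min_iff] at hT hD
      refine ⟨(1 / 2, (T (1 / 2) - D (1 / 2)) / 2), ⟨?_, ?_, ?_, ?_, ?_, ?_⟩, ?_⟩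
      · simp only; linarith
      · simp only; linarith
      · simp only; linarith
      · simp only; linarith
      · simp only; linarith
      · simp only; linarith
      · exact h.sub _ hh.1 hh.2 (by simp only; linarith) (by simp only; linarith)
  refine le_trans ?_ (vol_le (f := fun x => -min (q1 + b1 * x) (q2 + b2 * x))
    (g := fun x => min (p1 + a1 * x) (p2 + a2 * x)) (a := XL) (b := XR) (by fun_prop)
    (by fun_prop) (by linarith) ?_)
  · apply ENNReal.ofReal_le_ofReal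
    refine h1.trans (le_of_eq ?_)
    congr 1
    ext x
    ring
  · intro q k1 k2 k3 k4
    rw [lt_min_iff] at k4
    have k5 : -q.2 < min (q1 + b1 * q.1) (q2 + b2 * q.1) := by linarith
    rw [lt_min_iff] at k5
    exact hWR ⟨k1, k2, k4.1, k4.2, by linarith [k5.1], by linarith [k5.2]⟩

end Pool.Agent.Helper88.PH
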