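import Pool.Agent.Helper88.PH.Cases

/-!
# MP_8bf717, lower bound: the configurations with the roof `v1 v2 v3`, and with disjoint roofs
-/

set_option autoImplicit false

open MeasureTheory Set

namespace Pool.Agent.Helper88.PH

open Pool.Agent.Helper37.PH

variable {T D : ℝ → ℝ} {M : ℝ} {v : Fin 6 → ℝ × ℝ} {R : Set (ℝ × ℝ)} {c s : Fin 6 → ℝ}

theorem LD.flip (hl : LD v c s) : LD (fun i => flH (v i)) (fun i => -c i) (fun i => -s i) := by
  intro i h0 h3 z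
  rw [side_fl, mem_preimage, hl i h0 h3]
  simp only [flH_fst, flH_snd]
  constructor
  · rintro ⟨h1, h2⟩
    exact ⟨h1, by linarith⟩
  · rintro ⟨h1, h2⟩
    exact ⟨h1, by linarith⟩

theorem LD.rev (hl : LD v c s) (k : Fin 6) (hk : k = 1 ∨ k = 4) :
    LD (fun i => v (k - i)) (fun i => c (k - i - 1)) (fun i => s (k - i - 1)) := by
  intro i h0 h3 z
  have e0 : k - i - 1 ≠ 0 := by
    have : ∀ k i : Fin 6, (k = 1 ∨ k = 4) → i ≠ 0 → i ≠ 3 → k - i - 1 ≠ 0 := by decide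
    exact this k i hk h0 h3
  have e3 : k - i - 1 ≠ 3 := by
    have : ∀ k i : Fin 6, (k = 1 ∨ k = 4) → i ≠ 0 → i ≠ 3 → k - i - 1 ≠ 3 := by decide
    exact this k i hk h0 h3
  rw [side_rev, hl _ e0 e3]
  have e1 : ∀ k i : Fin 6, k - i - 1 + 1 = k - i := by decide
  have e2 : ∀ k i : Fin 6, k - (i + 1) = k - i - 1 := by decide
  simp only
  rw [e1, e2, uIcc_comm]

/-- a vertex shared by a side above and a side below is not over the strip -/
theorem Cfg.vert_out (h : Cfg T D M v R) (i : Fin 6)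
    (hh : (Ab T v i ∧ Be D v (i + 1)) ∨ (Be D v i ∧ Ab T v (i + 1))) :
    (v (i + 1)).1 ∉ Ioo (0 : ℝ) 1 := by
  intro hx
  have hpos := h.dat.pos _ hx
  rcases hh with ⟨h1, h2⟩ | ⟨h1, h2⟩
  · have h3 := h.ab_all h1 (right_mem v i) hx.1 hx.2
    have h4 := h.be_all h2 (left_mem v (i + 1)) hx.1 hx.2
    linarith
  · have h3 := h.ab_all h2 (left_mem v (i + 1)) hx.1 hx.2
    have h4 := h.be_all h1 (right_mem v i) hx.1 hx.2
    linarith

theorem Cfg.X0_out (h : Cfg T D M v R)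
    (hh : (Ab T v 1 ∧ Be D v 5) ∨ (Be D v 1 ∧ Ab T v 5)) : (v 0).1 ∉ Ioo (0 : ℝ) 1 := by
  intro hx
  have hx' : (v 1).1 ∈ Ioo (0 : ℝ) 1 := by rw [← h.w0]; exact hx
  rcases hh with ⟨h1, h2⟩ | ⟨h1, h2⟩
  · have h3 := h.ab_all h1 (left_mem v 1) hx'.1 hx'.2
    have h4 : Ab T v 0 := ⟨v 1, right_mem v 0, hx'.1, hx'.2, h3⟩
    exact h.notBoth (h.ab0 h4).2 h2
  · have h3 := h.be_all h1 (left_mem v 1) hx'.1 hx'.2
    have h4 : Be D v 0 := ⟨v 1, right_mem v 0, hx'.1, hx'.2, h3⟩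
    exact h.notBoth h2 (h.be0 h4).2

theorem Cfg.X1_out (h : Cfg T D M v R)
    (hh : (Ab T v 2 ∧ Be D v 4) ∨ (Be D v 2 ∧ Ab T v 4)) : (v 3).1 ∉ Ioo (0 : ℝ) 1 := by
  intro hx
  have hx' : (v 4).1 ∈ Ioo (0 : ℝ) 1 := by rw [← h.w3]; exact hx
  rcases hh with ⟨h1, h2⟩ | ⟨h1, h2⟩
  · have h3 := h.be_all h2 (left_mem v 4) hx'.1 hx'.2
    have h4 : Be D v 3 := ⟨v 4, right_mem v 3, hx'.1, hx'.2, h3⟩
    exact h.notBoth h1 (h.be3 h4).2
  · have h3 := h.ab_all h2 (left_mem v 4) hx'.1 hx'.2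
    have h4 : Ab T v 3 := ⟨v 4, right_mem v 3, hx'.1, hx'.2, h3⟩
    exact h.notBoth (h.ab3 h4).2 h1

theorem Cfg.ab_cases (h : Cfg T D M v R) {a b : Fin 6} (hb : ∀ k, k ≠ 0 → k ≠ 3 → k ≠ a → k ≠ b →
    Be D v k) (h0 : Be D v 1 ∨ Be D v 5) (h3 : Be D v 2 ∨ Be D v 4) :
    ∀ k, Ab T v k → k = a ∨ k = b := by
  intro k hk
  by_contra hc
  push Not at hc
  by_cases hk0 : k = 0
  · subst hk0
    rcases h0 with h0 | h0
    · exact h.notBoth (h.ab0 hk).1 h0
    · exact h.notBoth (h.ab0 hk).2 h0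
  by_cases hk3 : k = 3
  · subst hk3
    rcases h3 with h3 | h3
    · exact h.notBoth (h.ab3 hk).2 h3
    · exact h.notBoth (h.ab3 hk).1 h3
  exact h.notBoth hk (hb k hk0 hk3 hc.1 hc.2)

/-- the roof is `v1 v2` and `v4 v5` -/
theorem Cfg.case_ii (h : Cfg T D M v R) (hl : LD v c s) (A1 : Ab T v 1) (A4 : Ab T v 4)
    (B2 : Be D v 2) (B5 : Be D v 5) : ENNReal.ofReal M ≤ volume R := by
  have hX0 := h.X0_out (Or.inl ⟨A1, B5⟩)
  have hX1 := h.X1_out (Or.inr ⟨B2, A4⟩)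
  have hx2 := h.vert_out 1 (Or.inl ⟨A1, B2⟩)
  have hx5 := h.vert_out 4 (Or.inl ⟨A4, B5⟩)
  have hA : ∀ k, Ab T v k → k = 1 ∨ k = 4 := by
    apply h.ab_cases _ (Or.inr B5) (Or.inl B2)
    intro k k0 k3 k1 k4
    fin_cases k
    · exact absurd rfl k0
    · exact absurd rfl k1
    · exact B2
    · exact absurd rfl k3
    · exact absurd rfl k4
    · exact B5
  have sp1 := h.span hl 1 (by decide) (by decide) (Or.inl A1) (by rw [← h.w0]; exact hX0) hx2
  have sp4 := h.span hl 4 (by decide) (by decide) (Or.inl A4) (by rw [← h.w3]; exact hX1) hx5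
  apply h.two hl 1 4 (by decide) (by decide) (by decide) (by decide) hA A1 A4 sp1 sp4
  intro x hx
  exact h.ne_of_disj hl 1 4 (by decide) (by decide) (by decide) (by decide) (by decide)
    (by decide) (by decide) (sp1 x hx) (sp4 x hx)

theorem Cfg.hA12 (h : Cfg T D M v R) (B4 : Be D v 4) (B5 : Be D v 5) :
    ∀ k, Ab T v k → k = 1 ∨ k = 2 := by
  apply h.ab_cases _ (Or.inr B5) (Or.inr B4)
  intro k k0 k3 k1 k4
  fin_cases k
  · exact absurd rfl k0
  · exact absurd rfl k1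
  · exact absurd rfl k4
  · exact absurd rfl k3
  · exact B4
  · exact B5

/-- the roof is `v1 v2 v3` and `v2` is not over the strip -/
theorem Cfg.i_span (h : Cfg T D M v R) (hl : LD v c s) (A1 : Ab T v 1) (A2 : Ab T v 2)
    (B4 : Be D v 4) (B5 : Be D v 5) (hx2 : (v 2).1 ∉ Ioo (0 : ℝ) 1) :
    ENNReal.ofReal M ≤ volume R := by
  have hX0 := h.X0_out (Or.inl ⟨A1, B5⟩)
  have hX1 := h.X1_out (Or.inl ⟨A2, B4⟩)
  have sp1 := h.span hl 1 (by decide) (by decide) (Or.inl A1) (by rw [← h.w0]; exact hX0) hx2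
  have sp2 := h.span hl 2 (by decide) (by decide) (Or.inl A2) hx2 hX1
  apply h.two hl 1 2 (by decide) (by decide) (by decide) (by decide) (h.hA12 B4 B5) A1 A2 sp1 sp2
  intro x hx
  apply h.ne_of_adj hl 1 (by decide) (by decide) (by decide) (by decide)
  intro hh
  exact hx2 (hh ▸ hx)

/-- the roof is `v1 v2 v3`, convex -/
theorem Cfg.i_convex (h : Cfg T D M v R) (hl : LD v c s) (A1 : Ab T v 1) (A2 : Ab T v 2)
    (B4 : Be D v 4) (B5 : Be D v 5) (hx2 : (v 2).1 ∈ Ioo (0 : ℝ) 1) (hX0 : (v 0).1 ≤ 0)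
    (hX1 : 1 ≤ (v 3).1) (hs : s 1 ≤ s 2) : ENNReal.ofReal M ≤ volume R := by
  have hX0' : (v 1).1 ≤ 0 := by rw [← h.w0]; exact hX0
  have h20 := hx2.1
  have h21 := hx2.2
  have e1 : (v 2).2 = c 1 + s 1 * (v 2).1 :=
    ((hl 1 (by decide) (by decide) _).mp (right_mem v 1)).2
  have e2 : (v 2).2 = c 2 + s 2 * (v 2).1 :=
    ((hl 2 (by decide) (by decide) _).mp (left_mem v 2)).2
  have u1 : ∀ x, x ∈ uIcc (v 1).1 (v 2).1 ↔ (v 1).1 ≤ x ∧ x ≤ (v 2).1 := by
    intro x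
    rw [uIcc_of_le (by linarith)]
    exact Iff.rfl
  have u2 : ∀ x, x ∈ uIcc (v 2).1 (v 3).1 ↔ (v 2).1 ≤ x ∧ x ≤ (v 3).1 := by
    intro x
    rw [uIcc_of_le (by linarith)]
    exact Iff.rfl
  have m1 : ∀ z : ℝ × ℝ, z ∈ side v 1 ↔ (((v 1).1 ≤ z.1 ∧ z.1 ≤ (v 2).1) ∧
      z.2 = c 1 + s 1 * z.1) := by
    intro z
    rw [← u1]
    exact hl 1 (by decide) (by decide) z
  have m2 : ∀ z : ℝ × ℝ, z ∈ side v 2 ↔ (((v 2).1 ≤ z.1 ∧ z.1 ≤ (v 3).1) ∧
      z.2 = c 2 + s 2 * z.1) := by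
    intro z
    rw [← u2]
    exact hl 2 (by decide) (by decide) z
  rcases le_total (1 / 2) (v 2).1 with h12 | h12
  · apply h.sep (c 1) (s 1)
    · exact h.ab_all A1 (q := (1 / 2, c 1 + s 1 * (1 / 2)))
        ((m1 _).mpr ⟨⟨by simp only; linarith, h12⟩, rfl⟩) (by norm_num) (by norm_num)
    · intro k q hq q0 q1 q2
      rcases h.hA12 B4 B5 k ⟨q, hq, q0, q1, q2⟩ with rfl | rfl
      · exact le_of_eq ((m1 q).mp hq).2.symm
      · obtain ⟨⟨h5, -⟩, h6⟩ := (m2 q).mp hq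
        rw [h6]
        nlinarith
  · apply h.sep (c 2) (s 2)
    · exact h.ab_all A2 (q := (1 / 2, c 2 + s 2 * (1 / 2)))
        ((m2 _).mpr ⟨⟨h12, by simp only; linarith⟩, rfl⟩) (by norm_num) (by norm_num)
    · intro k q hq q0 q1 q2
      rcases h.hA12 B4 B5 k ⟨q, hq, q0, q1, q2⟩ with rfl | rfl
      · obtain ⟨⟨-, h5⟩, h6⟩ := (m1 q).mp hq
        rw [h6]
        nlinarith
      · exact le_of_eq ((m2 q).mp hq).2.symm

/-- roof and floor concave: Lemma P -/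
theorem Cfg.i_main (h : Cfg T D M v R) (hl : LD v c s) (A1 : Ab T v 1) (A2 : Ab T v 2)
    (B4 : Be D v 4) (B5 : Be D v 5) (hx2 : (v 2).1 ∈ Ioo (0 : ℝ) 1)
    (hx5 : (v 5).1 ∈ Ioo (0 : ℝ) 1) (hX0 : (v 0).1 ≤ 0)
    (hX1 : 1 ≤ (v 3).1) (hs : s 2 < s 1) (hs' : s 5 < s 4) : ENNReal.ofReal M ≤ volume R := by
  have hX0' : (v 1).1 ≤ 0 := by rw [← h.w0]; exact hX0
  have hX1' : 1 ≤ (v 4).1 := by rw [← h.w3]; exact hX1
  have h20 := hx2.1
  have h21 := hx2.2
  have h50 := hx5.1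
  have h51 := hx5.2
  have m1 : ∀ z : ℝ × ℝ, z ∈ side v 1 ↔ (((v 1).1 ≤ z.1 ∧ z.1 ≤ (v 2).1) ∧
      z.2 = c 1 + s 1 * z.1) := by
    intro z
    have := hl 1 (by decide) (by decide) z
    have e : (1 : Fin 6) + 1 = 2 := rfl
    rw [e, uIcc_of_le (by linarith), mem_Icc] at this
    exact this
  have m2 : ∀ z : ℝ × ℝ, z ∈ side v 2 ↔ (((v 2).1 ≤ z.1 ∧ z.1 ≤ (v 3).1) ∧
      z.2 = c 2 + s 2 * z.1) := by
    intro z
    have := hl 2 (by decide) (by decide) z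
    have e : (2 : Fin 6) + 1 = 3 := rfl
    rw [e, uIcc_of_le (by linarith), mem_Icc] at this
    exact this
  have m4 : ∀ z : ℝ × ℝ, z ∈ side v 4 ↔ (((v 5).1 ≤ z.1 ∧ z.1 ≤ (v 4).1) ∧
      z.2 = c 4 + s 4 * z.1) := by
    intro z
    have := hl 4 (by decide) (by decide) z
    have e : (4 : Fin 6) + 1 = 5 := rfl
    rw [e, uIcc_of_ge (by linarith), mem_Icc] at this
    exact this
  have m5 : ∀ z : ℝ × ℝ, z ∈ side v 5 ↔ (((v 0).1 ≤ z.1 ∧ z.1 ≤ (v 5).1) ∧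
      z.2 = c 5 + s 5 * z.1) := by
    intro z
    have := hl 5 (by decide) (by decide) z
    have e : (5 : Fin 6) + 1 = 0 := rfl
    rw [e, uIcc_of_ge (by linarith), mem_Icc] at this
    exact this
  have e12 : (v 2).2 = c 1 + s 1 * (v 2).1 := ((m1 _).mp (right_mem v 1)).2
  have e22 : (v 2).2 = c 2 + s 2 * (v 2).1 := ((m2 _).mp (left_mem v 2)).2
  have e45 : (v 5).2 = c 4 + s 4 * (v 5).1 := ((m4 _).mp (right_mem v 4)).2
  have e55 : (v 5).2 = c 5 + s 5 * (v 5).1 := ((m5 _).mp (left_mem v 5)).2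
  have e11 : (v 1).2 = c 1 + s 1 * (v 1).1 := ((m1 _).mp (left_mem v 1)).2
  have e50 : (v 0).2 = c 5 + s 5 * (v 0).1 := ((m5 _).mp (right_mem v 5)).2
  have e23 : (v 3).2 = c 2 + s 2 * (v 3).1 := ((m2 _).mp (right_mem v 2)).2
  have e44 : (v 4).2 = c 4 + s 4 * (v 4).1 := ((m4 _).mp (left_mem v 4)).2
  -- the roof and the floor against the pentagon
  have r1 : ∀ x, 0 < x → x ≤ (v 2).1 → T x ≤ c 1 + s 1 * x := fun x k0 k1 =>
    h.ab_all A1 (q := (x, c 1 + s 1 * x)) ((m1 _).mpr ⟨⟨by simp only; linarith, k1⟩, rfl⟩) k0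
      (by simp only; linarith)
  have r2 : ∀ x, (v 2).1 ≤ x → x < 1 → T x ≤ c 2 + s 2 * x := fun x k0 k1 =>
    h.ab_all A2 (q := (x, c 2 + s 2 * x)) ((m2 _).mpr ⟨⟨k0, by simp only; linarith⟩, rfl⟩)
      (by simp only; linarith) k1
  have r5 : ∀ x, 0 < x → x ≤ (v 5).1 → D x ≤ -c 5 + -s 5 * x := fun x k0 k1 => by
    have := h.be_all B5 (q := (x, c 5 + s 5 * x)) ((m5 _).mpr ⟨⟨by simp only; linarith, k1⟩, rfl⟩)
      k0 (by simp only; linarith)
    simp only at this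
    linarith
  have r4 : ∀ x, (v 5).1 ≤ x → x < 1 → D x ≤ -c 4 + -s 4 * x := fun x k0 k1 => by
    have := h.be_all B4 (q := (x, c 4 + s 4 * x)) ((m4 _).mpr ⟨⟨k0, by simp only; linarith⟩, rfl⟩)
      (by simp only; linarith) k1
    simp only at this
    linarith
  -- the walls are traversed with positive height
  have hw0 : 0 < (v 1).2 - (v 0).2 := by
    by_contra hc
    push Not at hc
    -- the lines of the sides 1 and 5 cross
    set y := min (v 2).1 (v 5).1 with hy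
    have hy0 : 0 < y := lt_min h20 h50
    have hy2 : y ≤ (v 2).1 := min_le_left _ _
    have hy5 : y ≤ (v 5).1 := min_le_right _ _
    have k1 := r1 y hy0 hy2
    have k5 := r5 y hy0 hy5
    have kp := h.dat.pos y ⟨hy0, by linarith⟩
    have hcont : ContinuousOn (fun x => (c 1 - c 5) + (s 1 - s 5) * x) (Icc (v 0).1 y) := by
      fun_prop
    have h0 : (0 : ℝ) ∈ Icc ((c 1 - c 5) + (s 1 - s 5) * (v 0).1)
        ((c 1 - c 5) + (s 1 - s 5) * y) := by
      have e11' := e11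
      rw [← h.w0] at e11'
      constructor <;> nlinarith
    obtain ⟨x, hx, hx0⟩ := intermediate_value_Icc (by linarith) hcont h0
    simp only at hx0
    have hd := h.hex.disj 1 5 (by decide) (by decide) (by decide)
    rw [Set.disjoint_left] at hd
    refine hd (a := (x, c 1 + s 1 * x)) ((m1 _).mpr ⟨⟨?_, ?_⟩, rfl⟩)
      ((m5 _).mpr ⟨⟨?_, ?_⟩, ?_⟩)
    · rw [← h.w0]
      exact hx.1
    · exact hx.2.trans hy2
    · exact hx.1
    · exact hx.2.trans hy5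
    · simp only
      linarith
  have hw3 : 0 < (v 3).2 - (v 4).2 := by
    by_contra hc
    push Not at hc
    set y := max (v 2).1 (v 5).1 with hy
    have hy0 : y < 1 := max_lt h21 h51
    have hy2 : (v 2).1 ≤ y := le_max_left _ _
    have hy5 : (v 5).1 ≤ y := le_max_right _ _
    have k1 := r2 y hy2 hy0
    have k5 := r4 y hy5 hy0
    have kp := h.dat.pos y ⟨by linarith, hy0⟩
    have hcont : ContinuousOn (fun x => (c 2 - c 4) + (s 2 - s 4) * x) (Icc y (v 3).1) := by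
      fun_prop
    have h0 : (0 : ℝ) ∈ Icc ((c 2 - c 4) + (s 2 - s 4) * (v 3).1)
        ((c 2 - c 4) + (s 2 - s 4) * y) := by
      have e44' := e44
      rw [← h.w3] at e44'
      constructor <;> nlinarith
    obtain ⟨x, hx, hx0⟩ := intermediate_value_Icc' (by linarith) hcont h0
    simp only at hx0
    have hd := h.hex.disj 2 4 (by decide) (by decide) (by decide)
    rw [Set.disjoint_left] at hd
    refine hd (a := (x, c 2 + s 2 * x)) ((m2 _).mpr ⟨⟨?_, ?_⟩, rfl⟩)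
      ((m4 _).mpr ⟨⟨?_, ?_⟩, ?_⟩)
    · exact hy2.trans hx.1
    · exact hx.2
    · exact hy5.trans hx.1
    · rw [← h.w3]
      exact hx.2
    · simp only
      linarith
  have hlen := h.len
  rw [abs_of_pos hw0, abs_of_neg (by linarith)] at hlen
  have e11' := e11
  have e44' := e44
  rw [← h.w0] at e11'
  rw [← h.w3] at e44'
  apply h.two_piece (c 1) (s 1) (c 2) (s 2) (-c 5) (-s 5) (-c 4) (-s 4) (v 2).1 (v 5).1 (v 0).1
    (v 3).1 h20.le h21.le (by linarith) hs.le h50.le h51.le (by linarith) (by linarith)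
  · intro x hx
    rcases le_total x (v 2).1 with hx2' | hx2'
    · have k1 := r1 x hx.1 hx2'
      apply le_min k1
      nlinarith
    · have k2 := r2 x hx2' hx.2
      apply le_min _ k2
      nlinarith
  · intro x hx
    rcases le_total x (v 5).1 with hx2' | hx2'
    · have k1 := r5 x hx.1 hx2'
      apply le_min k1
      nlinarith
    · have k2 := r4 x hx2' hx.2
      apply le_min _ k2
      nlinarith
  · exact hX0
  · exact hX1
  · linarith
  · linarith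
  · intro i q hq k1 k2 k3 k4 k5 k6
    fin_cases i
    · have := h.wall0 hq
      linarith
    · have := ((m1 q).mp hq).2
      linarith
    · have := ((m2 q).mp hq).2
      linarith
    · have := h.wall3 hq
      linarith
    · have := ((m4 q).mp hq).2
      linarith
    · have := ((m5 q).mp hq).2
      linarith

end Pool.Agent.Helper88.PH
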