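import Mathlib

/-!
# MP_8bf717, lower bound: Lemma Z (one variable)
-/

set_option autoImplicit false

open Set

namespace Pool.Agent.Helper88.PH

theorem lemZ_half {T : ℝ → ℝ}
    (sT : ∀ X ∈ Ioo (0 : ℝ) 1, ∃ g : ℝ, ∀ x ∈ Ioo (0 : ℝ) 1, T x ≤ T X + g * (x - X))
    {X cl sl cr sr : ℝ} (hX : X ∈ Ioo (0 : ℝ) 1)
    (hl : ∀ x, 0 < x → x ≤ X → T x ≤ cl + sl * x)
    (hr : ∀ x, X ≤ x → x < 1 → T x ≤ cr + sr * x) (hlr : cr + sr * X ≤ cl + sl * X) :
    (∃ c s : ℝ, T (1 / 2) ≤ c + s * (1 / 2) ∧ (∀ x, 0 < x → x ≤ X → c + s * x ≤ cl + sl * x) ∧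
      (∀ x, X ≤ x → x < 1 → c + s * x ≤ cr + sr * x)) ∨
    (∃ p1 a1 p2 a2 k : ℝ, 0 ≤ k ∧ k ≤ 1 ∧ p1 + a1 * k = p2 + a2 * k ∧ a2 ≤ a1 ∧
      (∀ x ∈ Ioo (0 : ℝ) 1, T x ≤ min (p1 + a1 * x) (p2 + a2 * x)) ∧
      (∀ x, x ≤ X → min (p1 + a1 * x) (p2 + a2 * x) ≤ cl + sl * x) ∧
      (∀ x, X ≤ x → min (p1 + a1 * x) (p2 + a2 * x) ≤ cr + sr * x)) := by
  obtain ⟨g, hg⟩ := sT X hX
  have hX0 := hX.1
  have hX1 := hX.2
  have hTX : T X ≤ cr + sr * X := hr X le_rfl hX1
  -- the line `m` through `(X, cr + sr X)` of slope `σ`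
  obtain ⟨σ, hσr, hσg, hσ⟩ : ∃ σ : ℝ, σ ≤ sr ∧ σ ≤ g ∧ (σ = sr ∨ σ = g) := by
    rcases le_total sr g with h | h
    · exact ⟨sr, le_rfl, h, Or.inl rfl⟩
    · exact ⟨g, h, le_rfl, Or.inr rfl⟩
  have hm : ∀ x ∈ Ioo (0 : ℝ) 1, T x ≤ (cr + (sr - σ) * X) + σ * x := by
    intro x hx
    rcases le_total x X with hxX | hxX
    · have h1 := hg x hx
      nlinarith
    · rcases hσ with rfl | rfl
      · have h1 := hr x hxX hx.2
        linarith
      · have h1 := hg x hx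
        nlinarith
  by_cases hsep : ∀ x, 0 < x → x ≤ X → (cr + (sr - σ) * X) + σ * x ≤ cl + sl * x
  · left
    refine ⟨cr + (sr - σ) * X, σ, hm _ (by constructor <;> norm_num), hsep, ?_⟩
    intro x hx _
    nlinarith
  · right
    push Not at hsep
    obtain ⟨x0, h0, h1, h2⟩ := hsep
    have hx0X : x0 < X := by
      rcases h1.eq_or_lt with h3 | h3
      · rw [h3] at h2
        linarith
      · exact h3
    have hσl : σ < sl := by
      by_contra hc
      push Not at hc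
      nlinarith
    have hd : 0 < sl - σ := by linarith
    set k := (cr + (sr - σ) * X - cl) / (sl - σ) with hk
    have hk1 : (sl - σ) * k = cr + (sr - σ) * X - cl := by
      rw [hk]
      field_simp
    have hkx : x0 < k := by
      by_contra hc
      push Not at hc
      nlinarith
    have hkX : k ≤ X := by
      by_contra hc
      push Not at hc
      nlinarith
    refine ⟨cl, sl, cr + (sr - σ) * X, σ, k, by linarith, by linarith, by linarith, hσl.le, ?_,
      ?_, ?_⟩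
    · intro x hx
      apply le_min _ (hm x hx)
      rcases le_total x X with hxX | hxX
      · exact hl x hx.1 hxX
      · have h3 := hm x hx
        have h4 : (sl - σ) * k ≤ (sl - σ) * x := by
          apply mul_le_mul_of_nonneg_left (by linarith) hd.le
        linarith
    · intro x _
      exact min_le_left _ _
    · intro x hx
      refine (min_le_right _ _).trans ?_
      nlinarith

theorem lemZ {T : ℝ → ℝ}
    (sT : ∀ X ∈ Ioo (0 : ℝ) 1, ∃ g : ℝ, ∀ x ∈ Ioo (0 : ℝ) 1, T x ≤ T X + g * (x - X))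
    {X cl sl cr sr : ℝ} (hX : X ∈ Ioo (0 : ℝ) 1)
    (hl : ∀ x, 0 < x → x ≤ X → T x ≤ cl + sl * x)
    (hr : ∀ x, X ≤ x → x < 1 → T x ≤ cr + sr * x) :
    (∃ c s : ℝ, T (1 / 2) ≤ c + s * (1 / 2) ∧ (∀ x, 0 < x → x ≤ X → c + s * x ≤ cl + sl * x) ∧
      (∀ x, X ≤ x → x < 1 → c + s * x ≤ cr + sr * x)) ∨
    (∃ p1 a1 p2 a2 k : ℝ, 0 ≤ k ∧ k ≤ 1 ∧ p1 + a1 * k = p2 + a2 * k ∧ a2 ≤ a1 ∧
      (∀ x ∈ Ioo (0 : ℝ) 1, T x ≤ min (p1 + a1 * x) (p2 + a2 * x)) ∧
      (∀ x, x ≤ X → min (p1 + a1 * x) (p2 + a2 * x) ≤ cl + sl * x) ∧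
      (∀ x, X ≤ x → min (p1 + a1 * x) (p2 + a2 * x) ≤ cr + sr * x)) := by
  rcases le_total (cr + sr * X) (cl + sl * X) with hlr | hlr
  · exact lemZ_half sT hX hl hr hlr
  · have hX' : 1 - X ∈ Ioo (0 : ℝ) 1 := ⟨by linarith [hX.2], by linarith [hX.1]⟩
    have sT' : ∀ X ∈ Ioo (0 : ℝ) 1, ∃ g : ℝ, ∀ x ∈ Ioo (0 : ℝ) 1,
        (fun x => T (1 - x)) x ≤ (fun x => T (1 - x)) X + g * (x - X) := by
      intro Y hY
      obtain ⟨g, hg⟩ := sT (1 - Y) ⟨by linarith [hY.2], by linarith [hY.1]⟩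
      refine ⟨-g, ?_⟩
      intro x hx
      have := hg (1 - x) ⟨by linarith [hx.2], by linarith [hx.1]⟩
      simp only
      linarith
    have hl' : ∀ x, 0 < x → x ≤ 1 - X → (fun x => T (1 - x)) x ≤ (cr + sr) + (-sr) * x := by
      intro x h0 h1
      have := hr (1 - x) (by linarith) (by linarith)
      simp only
      linarith
    have hr' : ∀ x, 1 - X ≤ x → x < 1 → (fun x => T (1 - x)) x ≤ (cl + sl) + (-sl) * x := by
      intro x h0 h1
      have := hl (1 - x) (by linarith) (by linarith)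
      simp only
      linarith
    rcases lemZ_half sT' hX' hl' hr' (by linarith) with ⟨c, s, h1, h2, h3⟩ |
      ⟨p1, a1, p2, a2, k, h1, h2, h3, h4, h5, h6, h7⟩
    · left
      refine ⟨c + s, -s, ?_, ?_, ?_⟩
      · norm_num at h1 ⊢
        linarith
      · intro x h0 hx
        have := h3 (1 - x) (by linarith) (by linarith)
        linarith
      · intro x hx h0
        have := h2 (1 - x) (by linarith) (by linarith)
        linarith
    · right
      have e1 : ∀ x : ℝ, (p2 + a2) + (-a2) * x = p2 + a2 * (1 - x) := fun x => by ring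
      have e2 : ∀ x : ℝ, (p1 + a1) + (-a1) * x = p1 + a1 * (1 - x) := fun x => by ring
      refine ⟨p2 + a2, -a2, p1 + a1, -a1, 1 - k, by linarith, by linarith, by linarith,
        by linarith, ?_, ?_, ?_⟩
      · intro x hx
        have := h5 (1 - x) ⟨by linarith [hx.2], by linarith [hx.1]⟩
        rw [e1, e2, min_comm]
        simpa using this
      · intro x hx
        have := h7 (1 - x) (by linarith)
        rw [e1, e2, min_comm]
        linarith
      · intro x hx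
        have := h6 (1 - x) (by linarith)
        rw [e1, e2, min_comm]
        linarith

end Pool.Agent.Helper88.PH
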