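import Pool.Agent.Helper88.PH.CaseI
import Pool.Agent.Helper88.PH.LemZ

/-!
# MP_8bf717, lower bound: the configurations with the roof `v5 v0`, `v1 v2`
-/

set_option autoImplicit false

open MeasureTheory Set

namespace Pool.Agent.Helper88.PH

open Pool.Agent.Helper37.PH

variable {T D : ℝ → ℝ} {M : ℝ} {v : Fin 6 → ℝ × ℝ} {R : Set (ℝ × ℝ)} {c s : Fin 6 → ℝ}

/-- the separator principle, below -/
theorem Cfg.sepB (h : Cfg T D M v R) (c s : ℝ) (h12 : D (1 / 2) ≤ c + s * (1 / 2))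
    (hm : ∀ i, ∀ q ∈ side v i, 0 < q.1 → q.1 < 1 → q.2 ≤ -D q.1 → c + s * q.1 ≤ -q.2) :
    ENNReal.ofReal M ≤ volume R := by
  rw [← vol_fl h.cpt]
  apply h.flip.sep c s h12
  intro i q hq q0 q1 q2
  rw [side_fl] at hq
  have := hm i (flH q) hq q0 q1 (by simp; linarith)
  simpa using this

theorem Cfg.hA15 (h : Cfg T D M v R) (B2 : Be D v 2) (B4 : Be D v 4) :
    ∀ k, Ab T v k → k = 0 ∨ k = 1 ∨ k = 5 := by
  intro k hk
  fin_cases k
  · exact Or.inl rfl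
  · exact Or.inr (Or.inl rfl)
  · exact absurd (h.notBoth hk B2) id
  · exact absurd (h.notBoth (h.ab3 hk).1 B4) id
  · exact absurd (h.notBoth hk B4) id
  · exact Or.inr (Or.inr rfl)

theorem Cfg.hB24 (h : Cfg T D M v R) (A1 : Ab T v 1) (A5 : Ab T v 5) :
    ∀ k, Be D v k → k = 3 ∨ k = 2 ∨ k = 4 := by
  intro k hk
  fin_cases k
  · exact absurd (h.notBoth A1 (h.be0 hk).1) id
  · exact absurd (h.notBoth A1 hk) id
  · exact Or.inr (Or.inl rfl)
  · exact Or.inl rfl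
  · exact Or.inr (Or.inr rfl)
  · exact absurd (h.notBoth A5 hk) id

/-- `X0` is not over the strip: the two roofs span it -/
theorem Cfg.iii_span (h : Cfg T D M v R) (hl : LD v c s) (A1 : Ab T v 1) (A5 : Ab T v 5)
    (B2 : Be D v 2) (B4 : Be D v 4) (hX0 : (v 0).1 ∉ Ioo (0 : ℝ) 1) :
    ENNReal.ofReal M ≤ volume R := by
  have hx2 := h.vert_out 1 (Or.inl ⟨A1, B2⟩)
  have hx5 := h.vert_out 4 (Or.inr ⟨B4, A5⟩)
  have hA : ∀ k, Ab T v k → k = 1 ∨ k = 5 := by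
    intro k hk
    rcases h.hA15 B2 B4 k hk with rfl | hh
    · exfalso
      obtain ⟨q, hq, q0, q1, -⟩ := hk
      rw [h.wall0 hq] at q0 q1
      exact hX0 ⟨q0, q1⟩
    · exact hh
  have sp1 := h.span hl 1 (by decide) (by decide) (Or.inl A1) (by rw [← h.w0]; exact hX0) hx2
  have sp5 := h.span hl 5 (by decide) (by decide) (Or.inl A5) hx5 hX0
  apply h.two hl 1 5 (by decide) (by decide) (by decide) (by decide) hA A1 A5 sp1 sp5
  intro x hx
  exact h.ne_of_disj hl 1 5 (by decide) (by decide) (by decide) (by decide) (by decide)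
    (by decide) (by decide) (sp1 x hx) (sp5 x hx)

/-- points of the wall `0` are not below both its ends -/
theorem Cfg.wall0_ge (_h : Cfg T D M v R) {q : ℝ × ℝ} (hq : q ∈ side v 0) {y : ℝ}
    (h0 : y ≤ (v 0).2) (h1 : y ≤ (v 1).2) : y ≤ q.2 := by
  obtain ⟨a, b, ha, hb, hab, rfl⟩ := hq
  simp only [Prod.snd_add, Prod.smul_snd, smul_eq_mul]
  have e : (v (0 + 1)).2 = (v 1).2 := rfl
  rw [e]
  have : y = a * y + b * y := by rw [← add_mul, hab, one_mul]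
  nlinarith [mul_le_mul_of_nonneg_left h0 ha, mul_le_mul_of_nonneg_left h1 hb]

theorem Cfg.wall3_le (_h : Cfg T D M v R) {q : ℝ × ℝ} (hq : q ∈ side v 3) {y : ℝ}
    (h0 : (v 3).2 ≤ y) (h1 : (v 4).2 ≤ y) : q.2 ≤ y := by
  obtain ⟨a, b, ha, hb, hab, rfl⟩ := hq
  simp only [Prod.snd_add, Prod.smul_snd, smul_eq_mul]
  have e : (v (3 + 1)).2 = (v 4).2 := rfl
  rw [e]
  have : y = a * y + b * y := by rw [← add_mul, hab, one_mul]
  nlinarith [mul_le_mul_of_nonneg_left h0 ha, mul_le_mul_of_nonneg_left h1 hb]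

/-- the Z-type -/
theorem Cfg.iii_main (h : Cfg T D M v R) (hl : LD v c s) (A1 : Ab T v 1) (A5 : Ab T v 5)
    (B2 : Be D v 2) (B4 : Be D v 4) (hX0 : (v 0).1 ∈ Ioo (0 : ℝ) 1)
    (hX1 : (v 3).1 ∈ Ioo (0 : ℝ) 1) (hx5 : (v 5).1 ≤ 0) (hx2 : 1 ≤ (v 2).1) :
    ENNReal.ofReal M ≤ volume R := by
  have h00 := hX0.1
  have h01 := hX0.2
  have h10 := hX1.1
  have h11 := hX1.2
  have hX0' : (v 1).1 = (v 0).1 := h.w0.symm
  have hX1' : (v 4).1 = (v 3).1 := h.w3.symm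
  have m1 : ∀ z : ℝ × ℝ, z ∈ side v 1 ↔ (((v 0).1 ≤ z.1 ∧ z.1 ≤ (v 2).1) ∧
      z.2 = c 1 + s 1 * z.1) := by
    intro z
    have := hl 1 (by decide) (by decide) z
    have e : (1 : Fin 6) + 1 = 2 := rfl
    rw [e, uIcc_of_le (by linarith), mem_Icc, hX0'] at this
    exact this
  have m2 : ∀ z : ℝ × ℝ, z ∈ side v 2 ↔ (((v 3).1 ≤ z.1 ∧ z.1 ≤ (v 2).1) ∧
      z.2 = c 2 + s 2 * z.1) := by
    intro z
    have := hl 2 (by decide) (by decide) z
    have e : (2 : Fin 6) + 1 = 3 := rfl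
    rw [e, uIcc_of_ge (by linarith), mem_Icc] at this
    exact this
  have m4 : ∀ z : ℝ × ℝ, z ∈ side v 4 ↔ (((v 5).1 ≤ z.1 ∧ z.1 ≤ (v 3).1) ∧
      z.2 = c 4 + s 4 * z.1) := by
    intro z
    have := hl 4 (by decide) (by decide) z
    have e : (4 : Fin 6) + 1 = 5 := rfl
    rw [e, uIcc_of_ge (by linarith), mem_Icc, hX1'] at this
    exact this
  have m5 : ∀ z : ℝ × ℝ, z ∈ side v 5 ↔ (((v 5).1 ≤ z.1 ∧ z.1 ≤ (v 0).1) ∧
      z.2 = c 5 + s 5 * z.1) := by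
    intro z
    have := hl 5 (by decide) (by decide) z
    have e : (5 : Fin 6) + 1 = 0 := rfl
    rw [e, uIcc_of_le (by linarith), mem_Icc] at this
    exact this
  have e12 : (v 2).2 = c 1 + s 1 * (v 2).1 := ((m1 _).mp (right_mem v 1)).2
  have e22 : (v 2).2 = c 2 + s 2 * (v 2).1 := ((m2 _).mp (left_mem v 2)).2
  have e45 : (v 5).2 = c 4 + s 4 * (v 5).1 := ((m4 _).mp (right_mem v 4)).2
  have e55 : (v 5).2 = c 5 + s 5 * (v 5).1 := ((m5 _).mp (left_mem v 5)).2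
  have e11 : (v 1).2 = c 1 + s 1 * (v 0).1 := by
    have := ((m1 _).mp (left_mem v 1)).2
    rw [hX0'] at this
    exact this
  have e50 : (v 0).2 = c 5 + s 5 * (v 0).1 := ((m5 _).mp (right_mem v 5)).2
  have e23 : (v 3).2 = c 2 + s 2 * (v 3).1 := ((m2 _).mp (right_mem v 2)).2
  have e44 : (v 4).2 = c 4 + s 4 * (v 3).1 := by
    have := ((m4 _).mp (left_mem v 4)).2
    rw [hX1'] at this
    exact this
  have r5 : ∀ x, 0 < x → x ≤ (v 0).1 → T x ≤ c 5 + s 5 * x := fun x k0 k1 =>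
    h.ab_all A5 (q := (x, c 5 + s 5 * x)) ((m5 _).mpr ⟨⟨by simp only; linarith, k1⟩, rfl⟩) k0
      (by simp only; linarith)
  have r1 : ∀ x, (v 0).1 ≤ x → x < 1 → T x ≤ c 1 + s 1 * x := fun x k0 k1 =>
    h.ab_all A1 (q := (x, c 1 + s 1 * x)) ((m1 _).mpr ⟨⟨k0, by simp only; linarith⟩, rfl⟩)
      (by simp only; linarith) k1
  have r4 : ∀ x, 0 < x → x ≤ (v 3).1 → D x ≤ -c 4 + -s 4 * x := fun x k0 k1 => by
    have := h.be_all B4 (q := (x, c 4 + s 4 * x)) ((m4 _).mpr ⟨⟨by simp only; linarith, k1⟩, rfl⟩)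
      k0 (by simp only; linarith)
    simp only at this
    linarith
  have r2 : ∀ x, (v 3).1 ≤ x → x < 1 → D x ≤ -c 2 + -s 2 * x := fun x k0 k1 => by
    have := h.be_all B2 (q := (x, c 2 + s 2 * x)) ((m2 _).mpr ⟨⟨k0, by simp only; linarith⟩, rfl⟩)
      (by simp only; linarith) k1
    simp only at this
    linarith
  rcases lemZ h.dat.sT hX0 r5 r1 with ⟨C, S, z1, z2, z3⟩ |
    ⟨p1, a1, p2, a2, k, k0, k1, k2, k3, k4, k5, k6⟩
  · apply h.sep C S z1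
    intro i q hq q0 q1 q2
    rcases h.hA15 B2 B4 i ⟨q, hq, q0, q1, q2⟩ with rfl | rfl | rfl
    · apply h.wall0_ge hq
      · rw [h.wall0 hq, e50]
        exact z2 _ h00 le_rfl
      · rw [h.wall0 hq, e11]
        exact z3 _ le_rfl h01
    · obtain ⟨⟨w1, w2⟩, w3⟩ := (m1 q).mp hq
      rw [w3]
      exact z3 _ w1 q1
    · obtain ⟨⟨w1, w2⟩, w3⟩ := (m5 q).mp hq
      rw [w3]
      exact z2 _ q0 w2
  rcases lemZ h.dat.sD hX1 r4 r2 with ⟨C, S, z1, z2, z3⟩ |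
    ⟨q1, b1, q2, b2, l, l0, l1, l2, l3, l4, l5, l6⟩
  · apply h.sepB C S z1
    intro i q hq q0 q1 q2
    rcases h.hB24 A1 A5 i ⟨q, hq, q0, q1, q2⟩ with rfl | rfl | rfl
    · have : q.2 ≤ -(C + S * q.1) := by
        apply h.wall3_le hq
        · rw [h.wall3 hq, e23]
          have := z3 _ le_rfl h11
          linarith
        · rw [h.wall3 hq, e44]
          have := z2 _ h10 le_rfl
          linarith
      linarith
    · obtain ⟨⟨w1, w2⟩, w3⟩ := (m2 q).mp hq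
      rw [w3]
      have := z3 _ w1 q1
      linarith
    · obtain ⟨⟨w1, w2⟩, w3⟩ := (m4 q).mp hq
      rw [w3]
      have := z2 _ q0 w2
      linarith
  -- both roof and floor are two-piece
  set w : ℝ → ℝ := fun x => min (p1 + a1 * x) (p2 + a2 * x) + min (q1 + b1 * x) (q2 + b2 * x)
    with hw
  have cw : Continuous w := by
    rw [hw]
    fun_prop
  have hw01 : ∀ x ∈ Icc (0 : ℝ) 1, 0 ≤ w x := by
    have h1 : IsClosed {x | 0 ≤ w x} := isClosed_le continuous_const cw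
    have h2 : Ioo (0 : ℝ) 1 ⊆ {x | 0 ≤ w x} := by
      intro x hx
      have e1 := h.dat.pos x hx
      have e2 := k4 x hx
      have e3 := l4 x hx
      show 0 ≤ min (p1 + a1 * x) (p2 + a2 * x) + min (q1 + b1 * x) (q2 + b2 * x)
      linarith
    have h3 := closure_minimal h2 h1
    rw [closure_Ioo (by norm_num)] at h3
    exact h3
  have hwl : w (v 5).1 ≤ 0 := by
    have e1 := k5 (v 5).1 (by linarith)
    have e2 := l5 (v 5).1 (by linarith)
    show min (p1 + a1 * (v 5).1) (p2 + a2 * (v 5).1)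
      + min (q1 + b1 * (v 5).1) (q2 + b2 * (v 5).1) ≤ 0
    linarith
  have hwr : w (v 2).1 ≤ 0 := by
    have e1 := k6 (v 2).1 (by linarith)
    have e2 := l6 (v 2).1 (by linarith)
    show min (p1 + a1 * (v 2).1) (p2 + a2 * (v 2).1)
      + min (q1 + b1 * (v 2).1) (q2 + b2 * (v 2).1) ≤ 0
    linarith
  obtain ⟨XL, hXL, hXL0⟩ := intermediate_value_Icc hx5 cw.continuousOn
    (⟨hwl, hw01 0 ⟨le_rfl, zero_le_one⟩⟩ : (0 : ℝ) ∈ Icc (w (v 5).1) (w 0))
  obtain ⟨XR, hXR, hXR0⟩ := intermediate_value_Icc' hx2 cw.continuousOn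
    (⟨hwr, hw01 1 ⟨zero_le_one, le_rfl⟩⟩ : (0 : ℝ) ∈ Icc (w (v 2).1) (w 1))
  have hXLk : XL ≤ k := by linarith [hXL.2]
  have hXLl : XL ≤ l := by linarith [hXL.2]
  have hXRk : k ≤ XR := by linarith [hXR.1]
  have hXRl : l ≤ XR := by linarith [hXR.1]
  have f1 : min (p1 + a1 * XL) (p2 + a2 * XL) = p1 + a1 * XL := by
    apply min_eq_left
    nlinarith
  have f2 : min (q1 + b1 * XL) (q2 + b2 * XL) = q1 + b1 * XL := by
    apply min_eq_left
    nlinarith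
  have f3 : min (p1 + a1 * XR) (p2 + a2 * XR) = p2 + a2 * XR := by
    apply min_eq_right
    nlinarith
  have f4 : min (q1 + b1 * XR) (q2 + b2 * XR) = q2 + b2 * XR := by
    apply min_eq_right
    nlinarith
  have g1 : (p1 + a1 * XL) + (q1 + b1 * XL) = 0 := by
    rw [← f1, ← f2]
    exact hXL0
  have g2 : (p2 + a2 * XR) + (q2 + b2 * XR) = 0 := by
    rw [← f3, ← f4]
    exact hXR0
  apply h.two_piece p1 a1 p2 a2 q1 b1 q2 b2 k l XL XR k0 k1 k2 k3 l0 l1 l2 l3 k4 l4 hXL.2 hXR.1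
    (by rw [g1, g2]) g1.ge
  intro i q hq t1 t2 t3 t4 t5 t6
  have tu : q.2 < min (p1 + a1 * q.1) (p2 + a2 * q.1) := lt_min t3 t4
  have td : -q.2 < min (q1 + b1 * q.1) (q2 + b2 * q.1) := lt_min (by linarith) (by linarith)
  fin_cases i
  · have hx := h.wall0 hq
    rw [hx] at tu
    have e1 := k5 (v 0).1 le_rfl
    have e2 := k6 (v 0).1 le_rfl
    have := h.wall0_ge hq (y := min (p1 + a1 * (v 0).1) (p2 + a2 * (v 0).1)) (by linarith)
      (by linarith)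
    linarith
  · obtain ⟨⟨w1, w2⟩, w3⟩ := (m1 q).mp hq
    have := k6 q.1 w1
    linarith
  · obtain ⟨⟨w1, w2⟩, w3⟩ := (m2 q).mp hq
    have := l6 q.1 w1
    linarith
  · have hx := h.wall3 hq
    rw [hx] at td
    have e1 := l5 (v 3).1 le_rfl
    have e2 := l6 (v 3).1 le_rfl
    have := h.wall3_le hq (y := -min (q1 + b1 * (v 3).1) (q2 + b2 * (v 3).1)) (by linarith)
      (by linarith)
    linarith
  · obtain ⟨⟨w1, w2⟩, w3⟩ := (m4 q).mp hq
    have := l5 q.1 w2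
    linarith
  · obtain ⟨⟨w1, w2⟩, w3⟩ := (m5 q).mp hq
    have := k5 q.1 w2
    linarith

end Pool.Agent.Helper88.PH
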