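import Pool.Agent.Helper88.PH.Base

/-!
# MP_8bf717, lower bound: the cases which end with a separator
-/

set_option autoImplicit false

open MeasureTheory Set

namespace Pool.Agent.Helper88.PH

open Pool.Agent.Helper37.PH

/-- the nonvertical sides as graphs -/
def LD (v : Fin 6 → ℝ × ℝ) (c s : Fin 6 → ℝ) : Prop :=
  ∀ i, i ≠ 0 → i ≠ 3 → ∀ z : ℝ × ℝ,
    z ∈ side v i ↔ (z.1 ∈ uIcc (v i).1 (v (i + 1)).1 ∧ z.2 = c i + s i * z.1)

variable {T D : ℝ → ℝ} {M : ℝ} {v : Fin 6 → ℝ × ℝ} {R : Set (ℝ × ℝ)} {c s : Fin 6 → ℝ}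

theorem Cfg.nv (h : Cfg T D M v R) : ∀ i, i ≠ 0 → i ≠ 3 → (v i).1 ≠ (v (i + 1)).1 := by
  have h0 := h.w0
  have h3 := h.w3
  intro i hi0 hi3 hv
  fin_cases i
  · exact hi0 rfl
  · apply h.hex.corner 0
    rw [col_iff]
    have hv' : (v 1).1 = (v 2).1 := hv
    show ((v 1).1 - (v 0).1) * ((v 2).2 - (v 0).2) = ((v 1).2 - (v 0).2) * ((v 2).1 - (v 0).1)
    rw [← hv', ← h0]
    ring
  · apply h.hex.corner 2
    rw [col_iff]
    have hv' : (v 2).1 = (v 3).1 := hv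
    show ((v 3).1 - (v 2).1) * ((v 4).2 - (v 2).2) = ((v 3).2 - (v 2).2) * ((v 4).1 - (v 2).1)
    rw [hv', ← h3]
    ring
  · exact hi3 rfl
  · apply h.hex.corner 3
    rw [col_iff]
    have hv' : (v 4).1 = (v 5).1 := hv
    show ((v 4).1 - (v 3).1) * ((v 5).2 - (v 3).2) = ((v 4).2 - (v 3).2) * ((v 5).1 - (v 3).1)
    rw [← hv', ← h3]
    ring
  · apply h.hex.corner 5
    rw [col_iff]
    have hv' : (v 5).1 = (v 0).1 := hv
    show ((v 0).1 - (v 5).1) * ((v 1).2 - (v 5).2) = ((v 0).2 - (v 5).2) * ((v 1).1 - (v 5).1)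
    rw [hv', ← h0]
    ring

theorem Cfg.lines (h : Cfg T D M v R) : ∃ c s : Fin 6 → ℝ, LD v c s := by
  have h1 : ∀ i : Fin 6, ∃ a : ℝ × ℝ, i ≠ 0 → i ≠ 3 → ∀ z : ℝ × ℝ,
      z ∈ side v i ↔ (z.1 ∈ uIcc (v i).1 (v (i + 1)).1 ∧ z.2 = a.1 + a.2 * z.1) := by
    intro i
    by_cases hi0 : i = 0
    · exact ⟨0, fun hh => absurd hi0 hh⟩
    by_cases hi3 : i = 3
    · exact ⟨0, fun _ hh => absurd hi3 hh⟩
    obtain ⟨c, s, hcs⟩ := seg_graph (h.nv i hi0 hi3)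
    exact ⟨(c, s), fun _ _ => hcs⟩
  choose a ha using h1
  exact ⟨fun i => (a i).1, fun i => (a i).2, ha⟩

theorem Cfg.wall0 (h : Cfg T D M v R) {q : ℝ × ℝ} (hq : q ∈ side v 0) : q.1 = (v 0).1 := by
  obtain ⟨a, b, ha, hb, hab, rfl⟩ := hq
  have h0 : (v (0 + 1)).1 = (v 0).1 := h.w0.symm
  simp only [Prod.fst_add, Prod.smul_fst, smul_eq_mul]
  rw [h0, ← add_mul, hab, one_mul]

theorem Cfg.wall3 (h : Cfg T D M v R) {q : ℝ × ℝ} (hq : q ∈ side v 3) : q.1 = (v 3).1 := by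
  obtain ⟨a, b, ha, hb, hab, rfl⟩ := hq
  have h0 : (v (3 + 1)).1 = (v 3).1 := h.w3.symm
  simp only [Prod.fst_add, Prod.smul_fst, smul_eq_mul]
  rw [h0, ← add_mul, hab, one_mul]

theorem left_mem (v : Fin 6 → ℝ × ℝ) (i : Fin 6) : v i ∈ side v i := left_mem_segment ℝ _ _

theorem right_mem (v : Fin 6 → ℝ × ℝ) (i : Fin 6) : v (i + 1) ∈ side v i :=
  right_mem_segment ℝ _ _

/-- if the wall `0` is above over the strip, so are its neighbours -/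
theorem Cfg.ab0 (h : Cfg T D M v R) (ha : Ab T v 0) : Ab T v 1 ∧ Ab T v 5 := by
  obtain ⟨q, hq, q0, q1, q2⟩ := ha
  have hx := h.wall0 hq
  have hx0 : 0 < (v 0).1 := by rw [← hx]; exact q0
  have hx1 : (v 0).1 < 1 := by rw [← hx]; exact q1
  have hx0' : 0 < (v 1).1 := by rw [← h.w0]; exact hx0
  have hx1' : (v 1).1 < 1 := by rw [← h.w0]; exact hx1
  exact ⟨⟨v 1, left_mem v 1, hx0', hx1', h.ab_all ⟨q, hq, q0, q1, q2⟩ (right_mem v 0) hx0' hx1'⟩,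
    ⟨v 0, right_mem v 5, hx0, hx1, h.ab_all ⟨q, hq, q0, q1, q2⟩ (left_mem v 0) hx0 hx1⟩⟩

theorem Cfg.ab3 (h : Cfg T D M v R) (ha : Ab T v 3) : Ab T v 4 ∧ Ab T v 2 := by
  obtain ⟨q, hq, q0, q1, q2⟩ := ha
  have hx := h.wall3 hq
  have hx0 : 0 < (v 3).1 := by rw [← hx]; exact q0
  have hx1 : (v 3).1 < 1 := by rw [← hx]; exact q1
  have hx0' : 0 < (v 4).1 := by rw [← h.w3]; exact hx0
  have hx1' : (v 4).1 < 1 := by rw [← h.w3]; exact hx1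
  exact ⟨⟨v 4, left_mem v 4, hx0', hx1', h.ab_all ⟨q, hq, q0, q1, q2⟩ (right_mem v 3) hx0' hx1'⟩,
    ⟨v 3, right_mem v 2, hx0, hx1, h.ab_all ⟨q, hq, q0, q1, q2⟩ (left_mem v 3) hx0 hx1⟩⟩

theorem Cfg.be0 (h : Cfg T D M v R) (ha : Be D v 0) : Be D v 1 ∧ Be D v 5 := by
  have := h.flip.ab0 (ab_fl.mpr ha)
  exact ⟨ab_fl.mp this.1, ab_fl.mp this.2⟩

theorem Cfg.be3 (h : Cfg T D M v R) (ha : Be D v 3) : Be D v 4 ∧ Be D v 2 := by
  have := h.flip.ab3 (ab_fl.mpr ha)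
  exact ⟨ab_fl.mp this.1, ab_fl.mp this.2⟩

/-- only one side above -/
theorem Cfg.single (h : Cfg T D M v R) (hl : LD v c s) (i : Fin 6) (hi0 : i ≠ 0) (hi3 : i ≠ 3)
    (hu : ∀ j, j ≠ 0 → j ≠ 3 → Ab T v j → j = i) : ENNReal.ofReal M ≤ volume R := by
  have hu' : ∀ j, Ab T v j → j = i := by
    intro j hj
    by_cases hj0 : j = 0
    · subst hj0
      have h1 := hu 1 (by decide) (by decide) (h.ab0 hj).1
      have h5 := hu 5 (by decide) (by decide) (h.ab0 hj).2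
      rw [← h5] at h1
      exact absurd h1 (by decide)
    by_cases hj3 : j = 3
    · subst hj3
      have h1 := hu 4 (by decide) (by decide) (h.ab3 hj).1
      have h5 := hu 2 (by decide) (by decide) (h.ab3 hj).2
      rw [← h5] at h1
      exact absurd h1 (by decide)
    exact hu j hj0 hj3 hj
  obtain ⟨j, y, hy, hTy⟩ := h.cover (x := 1 / 2) (by norm_num) (by norm_num)
  have hj : j = i := hu' j ⟨_, hy, by norm_num, by norm_num, hTy⟩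
  subst hj
  have h1 := ((hl j hi0 hi3 _).mp hy).2
  simp only at h1
  apply h.sep (c j) (s j)
  · rw [← h1]
    exact hTy
  · intro k q hq q0 q1 q2
    have hk : k = j := hu' k ⟨q, hq, q0, q1, q2⟩
    subst hk
    exact le_of_eq ((hl k hi0 hi3 _).mp hq).2.symm

/-- two sides above which span the strip and do not cross -/
theorem Cfg.two (h : Cfg T D M v R) (hl : LD v c s) (i j : Fin 6) (hi0 : i ≠ 0) (hi3 : i ≠ 3)
    (hj0 : j ≠ 0) (hj3 : j ≠ 3) (hA : ∀ k, Ab T v k → k = i ∨ k = j) (hAi : Ab T v i)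
    (hAj : Ab T v j) (spi : ∀ x ∈ Ioo (0 : ℝ) 1, x ∈ uIcc (v i).1 (v (i + 1)).1)
    (spj : ∀ x ∈ Ioo (0 : ℝ) 1, x ∈ uIcc (v j).1 (v (j + 1)).1)
    (hne : ∀ x ∈ Ioo (0 : ℝ) 1, c i + s i * x ≠ c j + s j * x) :
    ENNReal.ofReal M ≤ volume R := by
  have hh : ((1 : ℝ) / 2) ∈ Ioo (0 : ℝ) 1 := by constructor <;> norm_num
  have h1 : T (1 / 2) ≤ c i + s i * (1 / 2) :=
    h.ab_all hAi (q := (1 / 2, c i + s i * (1 / 2)))
      ((hl i hi0 hi3 _).mpr ⟨spi _ hh, rfl⟩) hh.1 hh.2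
  have h2 : T (1 / 2) ≤ c j + s j * (1 / 2) :=
    h.ab_all hAj (q := (1 / 2, c j + s j * (1 / 2)))
      ((hl j hj0 hj3 _).mpr ⟨spj _ hh, rfl⟩) hh.1 hh.2
  rcases aff_sign (α := c j - c i) (β := s j - s i) (fun x hx hh => hne x hx (by linarith))
    with h3 | h3
  · apply h.sep (c i) (s i) h1
    intro k q hq q0 q1 q2
    rcases hA k ⟨q, hq, q0, q1, q2⟩ with rfl | rfl
    · exact le_of_eq ((hl k hi0 hi3 _).mp hq).2.symm
    · rw [((hl k hj0 hj3 _).mp hq).2]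
      linarith [h3 q.1 ⟨q0, q1⟩]
  · apply h.sep (c j) (s j) h2
    intro k q hq q0 q1 q2
    rcases hA k ⟨q, hq, q0, q1, q2⟩ with rfl | rfl
    · rw [((hl k hi0 hi3 _).mp hq).2]
      linarith [h3 q.1 ⟨q0, q1⟩]
    · exact le_of_eq ((hl k hj0 hj3 _).mp hq).2.symm

/-- a side above with both endpoints outside the strip spans it -/
theorem Cfg.span (_h : Cfg T D M v R) (hl : LD v c s) (i : Fin 6) (hi0 : i ≠ 0) (hi3 : i ≠ 3)
    (hA : Ab T v i ∨ Be D v i) (h1 : (v i).1 ∉ Ioo (0 : ℝ) 1)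
    (h2 : (v (i + 1)).1 ∉ Ioo (0 : ℝ) 1) :
    ∀ x ∈ Ioo (0 : ℝ) 1, x ∈ uIcc (v i).1 (v (i + 1)).1 := by
  intro x hx
  have h3 : ∃ q ∈ side v i, 0 < q.1 ∧ q.1 < 1 := by
    rcases hA with ⟨q, hq, q0, q1, -⟩ | ⟨q, hq, q0, q1, -⟩ <;> exact ⟨q, hq, q0, q1⟩
  obtain ⟨q, hq, q0, q1⟩ := h3
  have h4 := ((hl i hi0 hi3 _).mp hq).1
  simp only [mem_Ioo, not_and_or, not_lt] at h1 h2
  rw [mem_uIcc] at h4 ⊢
  have hx0 := hx.1
  have hx1 := hx.2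
  rcases h4 with h4 | h4
  · left
    constructor
    · rcases h1 with h1 | h1 <;> linarith
    · rcases h2 with h2 | h2 <;> linarith
  · right
    constructor
    · rcases h2 with h2 | h2 <;> linarith
    · rcases h1 with h1 | h1 <;> linarith

/-- disjoint sides do not cross -/
theorem Cfg.ne_of_disj (h : Cfg T D M v R) (hl : LD v c s) (i j : Fin 6) (hi0 : i ≠ 0)
    (hi3 : i ≠ 3) (hj0 : j ≠ 0) (hj3 : j ≠ 3) (h1 : j ≠ i) (h2 : j ≠ i + 1) (h3 : i ≠ j + 1)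
    {x : ℝ} (hxi : x ∈ uIcc (v i).1 (v (i + 1)).1) (hxj : x ∈ uIcc (v j).1 (v (j + 1)).1) :
    c i + s i * x ≠ c j + s j * x := by
  intro heq
  have hd := h.hex.disj i j h1 h2 h3
  rw [Set.disjoint_left] at hd
  exact hd ((hl i hi0 hi3 (x, c i + s i * x)).mpr ⟨hxi, rfl⟩)
    ((hl j hj0 hj3 _).mpr ⟨hxj, heq⟩)

/-- adjacent sides have different slopes -/
theorem Cfg.ne_of_adj (h : Cfg T D M v R) (hl : LD v c s) (i : Fin 6) (hi0 : i ≠ 0)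
    (hi3 : i ≠ 3) (hj0 : i + 1 ≠ 0) (hj3 : i + 1 ≠ 3) {x : ℝ} (hx : x ≠ (v (i + 1)).1) :
    c i + s i * x ≠ c (i + 1) + s (i + 1) * x := by
  intro heq
  have e1 := ((hl i hi0 hi3 _).mp (right_mem v i)).2
  have e2 := ((hl (i + 1) hj0 hj3 _).mp (left_mem v (i + 1))).2
  have e0 := ((hl i hi0 hi3 _).mp (left_mem v i)).2
  have e3 := ((hl (i + 1) hj0 hj3 _).mp (right_mem v (i + 1))).2
  have h1 : (s i - s (i + 1)) * (x - (v (i + 1)).1) = 0 := by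
    linear_combination heq - e2 + e1
  have h2 : s i = s (i + 1) := by
    rcases mul_eq_zero.mp h1 with h2 | h2
    · linarith
    · exact absurd (by linarith) hx
  have h3 : c i = c (i + 1) := by
    rw [← h2] at heq
    linarith
  apply h.hex.corner i
  rw [col_iff]
  have h5 : ∀ i : Fin 6, i + 2 = i + 1 + 1 := by decide
  rw [h5, e1, e0, e3, ← h2, ← h3]
  ring

end Pool.Agent.Helper88.PH
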