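import Pool.Agent.Helper88.PH.Tools

/-!
# MP_8bf717, upper bounds: gables are p-hexagons up to small area
-/

set_option autoImplicit false

open MeasureTheory Set

namespace Pool.Agent.Helper88.PH

open Pool.Agent.Helper37.PH

/-- vertical segments -/
theorem mem_vert {X y0 y1 : ℝ} (h : y0 ≤ y1) {z : ℝ × ℝ} :
    z ∈ segment ℝ (X, y0) (X, y1) ↔ z.1 = X ∧ y0 ≤ z.2 ∧ z.2 ≤ y1 := by
  constructor
  · rintro ⟨a, b, ha, hb, hab, rfl⟩
    simp only [Prod.fst_add, Prod.smul_fst, smul_eq_mul, Prod.snd_add, Prod.smul_snd]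
    have h1 : a = 1 - b := by linarith
    subst h1
    refine ⟨by ring, ?_, ?_⟩ <;> nlinarith
  · rintro ⟨h1, h2, h3⟩
    rcases h.eq_or_lt with h4 | h4
    · subst h4
      have : z = (X, y0) := Prod.ext h1 (le_antisymm h3 h2)
      rw [this]
      exact left_mem_segment ℝ _ _
    · have h5 : 0 < y1 - y0 := by linarith
      refine ⟨1 - (z.2 - y0) / (y1 - y0), (z.2 - y0) / (y1 - y0), ?_, ?_, by ring, ?_⟩
      · have : (z.2 - y0) / (y1 - y0) ≤ 1 := by
          rw [div_le_one h5]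
          linarith
        linarith
      · exact div_nonneg (by linarith) h5.le
      · apply Prod.ext
        · simp only [Prod.fst_add, Prod.smul_fst, smul_eq_mul]
          rw [h1]
          ring
        · simp only [Prod.snd_add, Prod.smul_snd, smul_eq_mul]
          field_simp
          ring

/-- segments on a line of given slope -/
theorem mem_slope {a b c y s : ℝ} (h : a < b) {z : ℝ × ℝ} :
    z ∈ segment ℝ (a, y + s * (a - c)) (b, y + s * (b - c)) ↔
      (a ≤ z.1 ∧ z.1 ≤ b) ∧ z.2 = y + s * (z.1 - c) := by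
  have h5 : 0 < b - a := by linarith
  constructor
  · rintro ⟨u, v, hu, hv, huv, rfl⟩
    simp only [Prod.fst_add, Prod.smul_fst, smul_eq_mul, Prod.snd_add, Prod.smul_snd]
    have h1 : u = 1 - v := by linarith
    subst h1
    refine ⟨⟨?_, ?_⟩, ?_⟩
    · nlinarith
    · nlinarith
    · ring
  · rintro ⟨⟨h1, h2⟩, h3⟩
    refine ⟨1 - (z.1 - a) / (b - a), (z.1 - a) / (b - a), ?_, ?_, by ring, ?_⟩
    · have : (z.1 - a) / (b - a) ≤ 1 := by
        rw [div_le_one h5]
        linarith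
      linarith
    · exact div_nonneg (by linarith) h5.le
    · apply Prod.ext
      · simp only [Prod.fst_add, Prod.smul_fst, smul_eq_mul]
        field_simp
        ring
      · simp only [Prod.snd_add, Prod.smul_snd, smul_eq_mul]
        rw [h3]
        field_simp
        ring

/-- interior points of a half plane satisfy the strict inequality -/
theorem pos_of_interior {S : Set (ℝ × ℝ)} {α β γ : ℝ} (hne : α ≠ 0 ∨ β ≠ 0)
    (hS : ∀ q ∈ S, 0 ≤ α * q.1 + β * q.2 + γ) {q : ℝ × ℝ} (hq : q ∈ interior S) :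
    0 < α * q.1 + β * q.2 + γ := by
  rw [mem_interior_iff_mem_nhds] at hq
  have hcont : Continuous fun t : ℝ => ((q.1 - t * α, q.2 - t * β) : ℝ × ℝ) := by fun_prop
  have hev : ∀ᶠ t in nhds (0 : ℝ), ((q.1 - t * α, q.2 - t * β) : ℝ × ℝ) ∈ S := by
    apply hcont.continuousAt.eventually_mem
    simpa using hq
  have hev2 : ∀ᶠ t in nhdsWithin (0 : ℝ) (Ioi 0), ((q.1 - t * α, q.2 - t * β) : ℝ × ℝ) ∈ S :=
    hev.filter_mono nhdsWithin_le_nhds
  obtain ⟨t, ht, ht0⟩ := (hev2.and self_mem_nhdsWithin).exists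
  have ht0' : (0 : ℝ) < t := ht0
  have h1 := hS _ ht
  simp only at h1
  have h2 : 0 < α ^ 2 + β ^ 2 := by
    rcases hne with h | h
    · have := sq_pos_of_ne_zero h
      have := sq_nonneg β
      linarith
    · have := sq_pos_of_ne_zero h
      have := sq_nonneg α
      linarith
  have h3 : 0 < t * (α ^ 2 + β ^ 2) := mul_pos ht0' h2
  nlinarith

/-- the six vertices -/
def hexV (X0 X1 k l rk ql s1 s2 t1 t2 : ℝ) : Fin 6 → ℝ × ℝ :=
  ![(X0, ql + t1 * (X0 - l)), (X0, rk + s1 * (X0 - k)), (k, rk), (X1, rk + s2 * (X1 - k)),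
    (X1, ql + t2 * (X1 - l)), (l, ql)]

/-- the closed region -/
def hexR (X0 X1 k l rk ql s1 s2 t1 t2 : ℝ) : Set (ℝ × ℝ) :=
  {q | (X0 ≤ q.1 ∧ q.1 ≤ X1) ∧ (q.2 ≤ rk + s1 * (q.1 - k) ∧ q.2 ≤ rk + s2 * (q.1 - k)) ∧
    (ql + t1 * (q.1 - l) ≤ q.2 ∧ ql + t2 * (q.1 - l) ≤ q.2)}

section hex

variable {X0 X1 k l rk ql s1 s2 t1 t2 : ℝ}

theorem hex_aux (h1 : X0 < k) (h2 : k < X1) (h3 : X0 < l) (h4 : l < X1) (h5 : s2 < s1)
    (h6 : t1 < t2) (h7 : ql + t1 * (X0 - l) < rk + s1 * (X0 - k))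
    (h8 : (rk + s1 * (X0 - k)) - (ql + t1 * (X0 - l)) =
      (rk + s2 * (X1 - k)) - (ql + t2 * (X1 - l))) :
    ∀ x, X0 ≤ x → x ≤ X1 → ql + t1 * (x - l) < rk + s1 * (x - k) ∧
      ql + t1 * (x - l) < rk + s2 * (x - k) ∧ ql + t2 * (x - l) < rk + s1 * (x - k) ∧
      ql + t2 * (x - l) < rk + s2 * (x - k) := by
  -- the difference of a roof line and a floor line is affine, positive at both ends
  have key : ∀ s t : ℝ, ql + t * (X0 - l) < rk + s * (X0 - k) →
      ql + t * (X1 - l) < rk + s * (X1 - k) → ∀ x, X0 ≤ x → x ≤ X1 →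
      ql + t * (x - l) < rk + s * (x - k) := by
    intro s t e1 e2 x e3 e4
    have e5 : 0 < X1 - X0 := by linarith
    have e6 : 0 ≤ (X1 - x) * ((rk + s * (X0 - k)) - (ql + t * (X0 - l))) :=
      mul_nonneg (by linarith) (by linarith)
    have e7 : 0 ≤ (x - X0) * ((rk + s * (X1 - k)) - (ql + t * (X1 - l))) :=
      mul_nonneg (by linarith) (by linarith)
    have e8 : (X1 - X0) * ((rk + s * (x - k)) - (ql + t * (x - l))) =
        (X1 - x) * ((rk + s * (X0 - k)) - (ql + t * (X0 - l))) +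
        (x - X0) * ((rk + s * (X1 - k)) - (ql + t * (X1 - l))) := by ring
    rcases e3.eq_or_lt with e9 | e9
    · rw [← e9]
      exact e1
    · have e10 : 0 < (x - X0) * ((rk + s * (X1 - k)) - (ql + t * (X1 - l))) :=
        mul_pos (by linarith) (by linarith)
      have e11 : 0 < (X1 - X0) * ((rk + s * (x - k)) - (ql + t * (x - l))) := by
        rw [e8]
        linarith
      have := (pos_iff_pos_of_mul_pos e11).mp e5
      linarith
  have a1 : rk + s1 * (X0 - k) ≤ rk + s2 * (X0 - k) := by nlinarith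
  have a2 : rk + s2 * (X1 - k) ≤ rk + s1 * (X1 - k) := by nlinarith
  have a3 : ql + t2 * (X0 - l) ≤ ql + t1 * (X0 - l) := by nlinarith
  have a4 : ql + t1 * (X1 - l) ≤ ql + t2 * (X1 - l) := by nlinarith
  intro x e3 e4
  refine ⟨key s1 t1 ?_ ?_ x e3 e4, key s2 t1 ?_ ?_ x e3 e4, key s1 t2 ?_ ?_ x e3 e4,
    key s2 t2 ?_ ?_ x e3 e4⟩ <;> linarith

theorem hex_frontier (h1 : X0 < k) (h2 : k < X1) (h3 : X0 < l) (h4 : l < X1) (h5 : s2 < s1)
    (h6 : t1 < t2) (h7 : ql + t1 * (X0 - l) < rk + s1 * (X0 - k))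
    (h8 : (rk + s1 * (X0 - k)) - (ql + t1 * (X0 - l)) =
      (rk + s2 * (X1 - k)) - (ql + t2 * (X1 - l))) :
    IsClosed (hexR X0 X1 k l rk ql s1 s2 t1 t2) ∧
    (interior (hexR X0 X1 k l rk ql s1 s2 t1 t2)).Nonempty ∧
    frontier (hexR X0 X1 k l rk ql s1 s2 t1 t2) =
      ⋃ i, side (hexV X0 X1 k l rk ql s1 s2 t1 t2) i := by
  have haux := hex_aux h1 h2 h3 h4 h5 h6 h7 h8
  have c1 : Continuous fun q : ℝ × ℝ => q.1 := continuous_fst
  have c2 : Continuous fun q : ℝ × ℝ => q.2 := continuous_snd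
  have hcl : IsClosed (hexR X0 X1 k l rk ql s1 s2 t1 t2) := by
    unfold hexR
    refine ((isClosed_le continuous_const c1).inter (isClosed_le c1 continuous_const)).inter
      (((isClosed_le c2 ?_).inter (isClosed_le c2 ?_)).inter
      ((isClosed_le ?_ c2).inter (isClosed_le ?_ c2))) <;> fun_prop
  have hint : ∀ q : ℝ × ℝ, q ∈ interior (hexR X0 X1 k l rk ql s1 s2 t1 t2) ↔
      (X0 < q.1 ∧ q.1 < X1) ∧ (q.2 < rk + s1 * (q.1 - k) ∧ q.2 < rk + s2 * (q.1 - k)) ∧
      (ql + t1 * (q.1 - l) < q.2 ∧ ql + t2 * (q.1 - l) < q.2) := by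
    intro q
    constructor
    · intro hq
      have e1 := pos_of_interior (α := 1) (β := 0) (γ := -X0) (Or.inl one_ne_zero)
        (fun p hp => by have := hp.1.1; linarith) hq
      have e2 := pos_of_interior (α := -1) (β := 0) (γ := X1) (Or.inl (by norm_num))
        (fun p hp => by have := hp.1.2; linarith) hq
      have e3 := pos_of_interior (α := s1) (β := -1) (γ := rk - s1 * k) (Or.inr (by norm_num))
        (fun p hp => by have := hp.2.1.1; linarith) hq
      have e4 := pos_of_interior (α := s2) (β := -1) (γ := rk - s2 * k) (Or.inr (by norm_num))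
        (fun p hp => by have := hp.2.1.2; linarith) hq
      have e5 := pos_of_interior (α := -t1) (β := 1) (γ := -ql + t1 * l) (Or.inr (by norm_num))
        (fun p hp => by have := hp.2.2.1; linarith) hq
      have e6 := pos_of_interior (α := -t2) (β := 1) (γ := -ql + t2 * l) (Or.inr (by norm_num))
        (fun p hp => by have := hp.2.2.2; linarith) hq
      refine ⟨⟨?_, ?_⟩, ⟨?_, ?_⟩, ?_, ?_⟩ <;> linarith
    · intro hq
      rw [mem_interior]
      refine ⟨{q : ℝ × ℝ | (X0 < q.1 ∧ q.1 < X1) ∧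
        (q.2 < rk + s1 * (q.1 - k) ∧ q.2 < rk + s2 * (q.1 - k)) ∧
        (ql + t1 * (q.1 - l) < q.2 ∧ ql + t2 * (q.1 - l) < q.2)}, ?_, ?_, hq⟩
      · rintro p ⟨⟨e1, e2⟩, ⟨e3, e4⟩, e5, e6⟩
        exact ⟨⟨e1.le, e2.le⟩, ⟨e3.le, e4.le⟩, e5.le, e6.le⟩
      · refine ((isOpen_lt continuous_const c1).inter (isOpen_lt c1 continuous_const)).inter
          (((isOpen_lt c2 ?_).inter (isOpen_lt c2 ?_)).inter
          ((isOpen_lt ?_ c2).inter (isOpen_lt ?_ c2))) <;> fun_prop
  refine ⟨hcl, ?_, ?_⟩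
  · -- a point in the middle
    obtain ⟨e1, e2, e3, e4⟩ := haux k h1.le h2.le
    have e5 : rk + s1 * (k - k) = rk := by ring
    have e6 : rk + s2 * (k - k) = rk := by ring
    rw [e5] at e1 e3
    refine ⟨(k, (max (ql + t1 * (k - l)) (ql + t2 * (k - l)) + rk) / 2), ?_⟩
    rw [hint]
    have e7 : max (ql + t1 * (k - l)) (ql + t2 * (k - l)) < rk := max_lt e1 e3
    have e8 := le_max_left (ql + t1 * (k - l)) (ql + t2 * (k - l))
    have e9 := le_max_right (ql + t1 * (k - l)) (ql + t2 * (k - l))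
    refine ⟨⟨h1, h2⟩, ⟨?_, ?_⟩, ?_, ?_⟩
    · simp only
      linarith
    · simp only
      linarith
    · simp only
      linarith
    · simp only
      linarith
  · -- the frontier
    have m0 : ∀ z : ℝ × ℝ, z ∈ side (hexV X0 X1 k l rk ql s1 s2 t1 t2) 0 ↔
        z.1 = X0 ∧ ql + t1 * (X0 - l) ≤ z.2 ∧ z.2 ≤ rk + s1 * (X0 - k) :=
      fun z => mem_vert h7.le
    have m1 : ∀ z : ℝ × ℝ, z ∈ side (hexV X0 X1 k l rk ql s1 s2 t1 t2) 1 ↔
        (X0 ≤ z.1 ∧ z.1 ≤ k) ∧ z.2 = rk + s1 * (z.1 - k) := by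
      intro z
      have e := mem_slope (a := X0) (b := k) (c := k) (y := rk) (s := s1) h1 (z := z)
      have e' : rk + s1 * (k - k) = rk := by ring
      rw [e'] at e
      exact e
    have m2 : ∀ z : ℝ × ℝ, z ∈ side (hexV X0 X1 k l rk ql s1 s2 t1 t2) 2 ↔
        (k ≤ z.1 ∧ z.1 ≤ X1) ∧ z.2 = rk + s2 * (z.1 - k) := by
      intro z
      have e := mem_slope (a := k) (b := X1) (c := k) (y := rk) (s := s2) h2 (z := z)
      have e' : rk + s2 * (k - k) = rk := by ring
      rw [e'] at e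
      exact e
    have m3 : ∀ z : ℝ × ℝ, z ∈ side (hexV X0 X1 k l rk ql s1 s2 t1 t2) 3 ↔
        z.1 = X1 ∧ ql + t2 * (X1 - l) ≤ z.2 ∧ z.2 ≤ rk + s2 * (X1 - k) := by
      intro z
      have e := mem_vert (X := X1) (y0 := ql + t2 * (X1 - l)) (y1 := rk + s2 * (X1 - k))
        (by linarith) (z := z)
      rw [segment_symm] at e
      exact e
    have m4 : ∀ z : ℝ × ℝ, z ∈ side (hexV X0 X1 k l rk ql s1 s2 t1 t2) 4 ↔
        (l ≤ z.1 ∧ z.1 ≤ X1) ∧ z.2 = ql + t2 * (z.1 - l) := by
      intro z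
      have e := mem_slope (a := l) (b := X1) (c := l) (y := ql) (s := t2) h4 (z := z)
      have e' : ql + t2 * (l - l) = ql := by ring
      rw [e', segment_symm] at e
      exact e
    have m5 : ∀ z : ℝ × ℝ, z ∈ side (hexV X0 X1 k l rk ql s1 s2 t1 t2) 5 ↔
        (X0 ≤ z.1 ∧ z.1 ≤ l) ∧ z.2 = ql + t1 * (z.1 - l) := by
      intro z
      have e := mem_slope (a := X0) (b := l) (c := l) (y := ql) (s := t1) h3 (z := z)
      have e' : ql + t1 * (l - l) = ql := by ring
      rw [e', segment_symm] at e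
      exact e
    have w1 : rk + s1 * (X0 - k) ≤ rk + s2 * (X0 - k) := by nlinarith
    have w2 : rk + s2 * (X1 - k) ≤ rk + s1 * (X1 - k) := by nlinarith
    have w3 : ql + t2 * (X0 - l) ≤ ql + t1 * (X0 - l) := by nlinarith
    have w4 : ql + t1 * (X1 - l) ≤ ql + t2 * (X1 - l) := by nlinarith
    rw [hcl.frontier_eq]
    ext z
    rw [mem_sdiff, hint, mem_iUnion]
    constructor
    · rintro ⟨⟨⟨e1, e2⟩, ⟨e3, e4⟩, e5, e6⟩, hn⟩
      by_contra hc
      push Not at hc
      have n0 := hc 0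
      have n1 := hc 1
      have n2 := hc 2
      have n3 := hc 3
      have n4 := hc 4
      have n5 := hc 5
      rw [m0] at n0
      rw [m1] at n1
      rw [m2] at n2
      rw [m3] at n3
      rw [m4] at n4
      rw [m5] at n5
      apply hn
      have p0 : X0 < z.1 := by
        rcases e1.eq_or_lt with e | e
        · exfalso
          apply n0
          rw [← e] at e3 e5
          exact ⟨e.symm, e5, e3⟩
        · exact e
      have p3 : z.1 < X1 := by
        rcases e2.eq_or_lt with e | e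
        · exfalso
          apply n3
          rw [e] at e4 e6
          exact ⟨e, e6, e4⟩
        · exact e
      refine ⟨⟨p0, p3⟩, ⟨?_, ?_⟩, ?_, ?_⟩
      · rcases e3.eq_or_lt with e | e
        · exfalso
          apply n1
          refine ⟨⟨e1, ?_⟩, e⟩
          by_contra hk
          push Not at hk
          nlinarith
        · exact e
      · rcases e4.eq_or_lt with e | e
        · exfalso
          apply n2
          refine ⟨⟨?_, e2⟩, e⟩
          by_contra hk
          push Not at hk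
          nlinarith
        · exact e
      · rcases e5.eq_or_lt with e | e
        · exfalso
          apply n5
          refine ⟨⟨e1, ?_⟩, e.symm⟩
          by_contra hk
          push Not at hk
          nlinarith
        · exact e
      · rcases e6.eq_or_lt with e | e
        · exfalso
          apply n4
          refine ⟨⟨?_, e2⟩, e.symm⟩
          by_contra hk
          push Not at hk
          nlinarith
        · exact e
    · rintro ⟨i, hi⟩
      fin_cases i
      · obtain ⟨e1, e2, e3⟩ := (m0 z).mp hi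
        refine ⟨⟨⟨by linarith, by linarith⟩, ⟨?_, ?_⟩, ?_, ?_⟩, ?_⟩
        · rw [e1]; linarith
        · rw [e1]; linarith
        · rw [e1]; linarith
        · rw [e1]; linarith
        · rintro ⟨⟨f, -⟩, -⟩
          linarith
      · obtain ⟨⟨e1, e2⟩, e3⟩ := (m1 z).mp hi
        obtain ⟨f1, f2, f3, f4⟩ := haux z.1 e1 (by linarith)
        refine ⟨⟨⟨by linarith, by linarith⟩, ⟨?_, ?_⟩, ?_, ?_⟩, ?_⟩
        · linarith
        · nlinarith
        · linarith
        · linarith
        · rintro ⟨-, ⟨f, -⟩, -⟩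
          linarith
      · obtain ⟨⟨e1, e2⟩, e3⟩ := (m2 z).mp hi
        obtain ⟨f1, f2, f3, f4⟩ := haux z.1 (by linarith) e2
        refine ⟨⟨⟨by linarith, by linarith⟩, ⟨?_, ?_⟩, ?_, ?_⟩, ?_⟩
        · nlinarith
        · linarith
        · linarith
        · linarith
        · rintro ⟨-, ⟨-, f⟩, -⟩
          linarith
      · obtain ⟨e1, e2, e3⟩ := (m3 z).mp hi
        refine ⟨⟨⟨by linarith, by linarith⟩, ⟨?_, ?_⟩, ?_, ?_⟩, ?_⟩
        · rw [e1]; linarith
        · rw [e1]; linarith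
        · rw [e1]; linarith
        · rw [e1]; linarith
        · rintro ⟨⟨-, f⟩, -⟩
          linarith
      · obtain ⟨⟨e1, e2⟩, e3⟩ := (m4 z).mp hi
        obtain ⟨f1, f2, f3, f4⟩ := haux z.1 (by linarith) e2
        refine ⟨⟨⟨by linarith, by linarith⟩, ⟨?_, ?_⟩, ?_, ?_⟩, ?_⟩
        · linarith
        · linarith
        · nlinarith
        · linarith
        · rintro ⟨-, -, -, f⟩
          linarith
      · obtain ⟨⟨e1, e2⟩, e3⟩ := (m5 z).mp hi
        obtain ⟨f1, f2, f3, f4⟩ := haux z.1 e1 (by linarith)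
        refine ⟨⟨⟨by linarith, by linarith⟩, ⟨?_, ?_⟩, ?_, ?_⟩, ?_⟩
        · linarith
        · linarith
        · linarith
        · nlinarith
        · rintro ⟨-, -, f, -⟩
          linarith

theorem hex_isHexagon (h1 : X0 < k) (h2 : k < X1) (h3 : X0 < l) (h4 : l < X1) (h5 : s2 < s1)
    (h6 : t1 < t2) (h7 : ql + t1 * (X0 - l) < rk + s1 * (X0 - k))
    (h8 : (rk + s1 * (X0 - k)) - (ql + t1 * (X0 - l)) =
      (rk + s2 * (X1 - k)) - (ql + t2 * (X1 - l))) :
    IsHexagon (hexV X0 X1 k l rk ql s1 s2 t1 t2) := by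
  have haux := hex_aux h1 h2 h3 h4 h5 h6 h7 h8
  have m0 : ∀ z : ℝ × ℝ, z ∈ side (hexV X0 X1 k l rk ql s1 s2 t1 t2) 0 →
      z.1 = X0 := fun z hz => ((mem_vert h7.le).mp hz).1
  have m1 : ∀ z : ℝ × ℝ, z ∈ side (hexV X0 X1 k l rk ql s1 s2 t1 t2) 1 →
      (X0 ≤ z.1 ∧ z.1 ≤ k) ∧ z.2 = rk + s1 * (z.1 - k) := by
    intro z
    have e := mem_slope (a := X0) (b := k) (c := k) (y := rk) (s := s1) h1 (z := z)
    have e' : rk + s1 * (k - k) = rk := by ring
    rw [e'] at e
    exact e.mp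
  have m2 : ∀ z : ℝ × ℝ, z ∈ side (hexV X0 X1 k l rk ql s1 s2 t1 t2) 2 →
      (k ≤ z.1 ∧ z.1 ≤ X1) ∧ z.2 = rk + s2 * (z.1 - k) := by
    intro z
    have e := mem_slope (a := k) (b := X1) (c := k) (y := rk) (s := s2) h2 (z := z)
    have e' : rk + s2 * (k - k) = rk := by ring
    rw [e'] at e
    exact e.mp
  have m3 : ∀ z : ℝ × ℝ, z ∈ side (hexV X0 X1 k l rk ql s1 s2 t1 t2) 3 →
      z.1 = X1 := by
    intro z
    have e := mem_vert (X := X1) (y0 := ql + t2 * (X1 - l)) (y1 := rk + s2 * (X1 - k))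
      (by linarith) (z := z)
    rw [segment_symm] at e
    exact fun hz => (e.mp hz).1
  have m4 : ∀ z : ℝ × ℝ, z ∈ side (hexV X0 X1 k l rk ql s1 s2 t1 t2) 4 →
      (l ≤ z.1 ∧ z.1 ≤ X1) ∧ z.2 = ql + t2 * (z.1 - l) := by
    intro z
    have e := mem_slope (a := l) (b := X1) (c := l) (y := ql) (s := t2) h4 (z := z)
    have e' : ql + t2 * (l - l) = ql := by ring
    rw [e', segment_symm] at e
    exact e.mp
  have m5 : ∀ z : ℝ × ℝ, z ∈ side (hexV X0 X1 k l rk ql s1 s2 t1 t2) 5 →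
      (X0 ≤ z.1 ∧ z.1 ≤ l) ∧ z.2 = ql + t1 * (z.1 - l) := by
    intro z
    have e := mem_slope (a := X0) (b := l) (c := l) (y := ql) (s := t1) h3 (z := z)
    have e' : ql + t1 * (l - l) = ql := by ring
    rw [e', segment_symm] at e
    exact e.mp
  refine ⟨?_, ?_⟩
  · intro i
    rw [col_iff]
    fin_cases i
    · show ¬ ((X0 - X0) * (rk - (ql + t1 * (X0 - l))) =
        ((rk + s1 * (X0 - k)) - (ql + t1 * (X0 - l))) * (k - X0))
      intro h
      have : 0 < ((rk + s1 * (X0 - k)) - (ql + t1 * (X0 - l))) * (k - X0) :=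
        mul_pos (by linarith) (by linarith)
      linarith
    · show ¬ ((k - X0) * ((rk + s2 * (X1 - k)) - (rk + s1 * (X0 - k))) =
        (rk - (rk + s1 * (X0 - k))) * (X1 - X0))
      intro h
      have : 0 < (k - X0) * (X1 - k) * (s1 - s2) :=
        mul_pos (mul_pos (by linarith) (by linarith)) (by linarith)
      nlinarith
    · show ¬ ((X1 - k) * ((ql + t2 * (X1 - l)) - rk) =
        ((rk + s2 * (X1 - k)) - rk) * (X1 - k))
      intro h
      have : 0 < (X1 - k) * ((rk + s2 * (X1 - k)) - (ql + t2 * (X1 - l))) :=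
        mul_pos (by linarith) (by linarith)
      nlinarith
    · show ¬ ((X1 - X1) * (ql - (rk + s2 * (X1 - k))) =
        ((ql + t2 * (X1 - l)) - (rk + s2 * (X1 - k))) * (l - X1))
      intro h
      have : 0 < ((rk + s2 * (X1 - k)) - (ql + t2 * (X1 - l))) * (X1 - l) :=
        mul_pos (by linarith) (by linarith)
      nlinarith
    · show ¬ ((l - X1) * ((ql + t1 * (X0 - l)) - (ql + t2 * (X1 - l))) =
        (ql - (ql + t2 * (X1 - l))) * (X0 - X1))
      intro h
      have : 0 < (l - X0) * (X1 - l) * (t2 - t1) :=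
        mul_pos (mul_pos (by linarith) (by linarith)) (by linarith)
      nlinarith
    · show ¬ ((X0 - l) * ((rk + s1 * (X0 - k)) - ql) =
        ((ql + t1 * (X0 - l)) - ql) * (X0 - l))
      intro h
      have : 0 < (l - X0) * ((rk + s1 * (X0 - k)) - (ql + t1 * (X0 - l))) :=
        mul_pos (by linarith) (by linarith)
      nlinarith
  · have key : ∀ i j : Fin 6, i < j → j ≠ i + 1 → i ≠ j + 1 →
        Disjoint (side (hexV X0 X1 k l rk ql s1 s2 t1 t2) i)
          (side (hexV X0 X1 k l rk ql s1 s2 t1 t2) j) := by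
      intro i j hij n1 n2
      rw [Set.disjoint_left]
      intro z hi hj
      fin_cases i <;> fin_cases j
      all_goals first
        | exact absurd hij (by decide)
        | exact absurd rfl n1
        | exact absurd rfl n2
        | skip
      · -- 0, 2
        have e1 := m0 z hi
        have e2 := (m2 z hj).1.1
        linarith
      · -- 0, 3
        have e1 := m0 z hi
        have e2 := m3 z hj
        linarith
      · -- 0, 4
        have e1 := m0 z hi
        have e2 := (m4 z hj).1.1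
        linarith
      · -- 1, 3
        have e1 := (m1 z hi).1.2
        have e2 := m3 z hj
        linarith
      · -- 1, 4
        obtain ⟨⟨e1, e2⟩, e3⟩ := m1 z hi
        obtain ⟨⟨e4, e5⟩, e6⟩ := m4 z hj
        have := (haux z.1 e1 (by linarith)).2.2.1
        linarith
      · -- 1, 5
        obtain ⟨⟨e1, e2⟩, e3⟩ := m1 z hi
        obtain ⟨⟨e4, e5⟩, e6⟩ := m5 z hj
        have := (haux z.1 e1 (by linarith)).1
        linarith
      · -- 2, 4
        obtain ⟨⟨e1, e2⟩, e3⟩ := m2 z hi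
        obtain ⟨⟨e4, e5⟩, e6⟩ := m4 z hj
        have := (haux z.1 (by linarith) e2).2.2.2
        linarith
      · -- 2, 5
        obtain ⟨⟨e1, e2⟩, e3⟩ := m2 z hi
        obtain ⟨⟨e4, e5⟩, e6⟩ := m5 z hj
        have := (haux z.1 (by linarith) e2).2.1
        linarith
      · -- 3, 5
        have e1 := m3 z hi
        have e2 := (m5 z hj).1.2
        linarith
    intro i j h9 h10 h11
    rcases lt_or_gt_of_ne h9 with h | h
    · exact (key j i h h11 h10).symm
    · exact key i j h h10 h11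

theorem hex_isPHexagon (h1 : X0 < k) (h2 : k < X1) (h3 : X0 < l) (h4 : l < X1) (h5 : s2 < s1)
    (h6 : t1 < t2) (h7 : ql + t1 * (X0 - l) < rk + s1 * (X0 - k))
    (h8 : (rk + s1 * (X0 - k)) - (ql + t1 * (X0 - l)) =
      (rk + s2 * (X1 - k)) - (ql + t2 * (X1 - l))) :
    IsPHexagon (hexR X0 X1 k l rk ql s1 s2 t1 t2) := by
  obtain ⟨f1, f2, f3⟩ := hex_frontier h1 h2 h3 h4 h5 h6 h7 h8
  refine ⟨_, hex_isHexagon h1 h2 h3 h4 h5 h6 h7 h8, ⟨0, Or.inr ?_⟩, ?_, f2, f3⟩
  · show ((X0, rk + s1 * (X0 - k)) : ℝ × ℝ) - (X0, ql + t1 * (X0 - l)) =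
      (X1, rk + s2 * (X1 - k)) - (X1, ql + t2 * (X1 - l))
    apply Prod.ext
    · simp
    · simp only [Prod.snd_sub]
      linarith
  · apply Metric.isCompact_of_isClosed_isBounded f1
    rw [isBounded_iff_forall_norm_le]
    refine ⟨max (|X0| + |X1|) (|rk| + |s1| * (|X0| + |X1| + |k|) +
      (|ql| + |t1| * (|X0| + |X1| + |l|))), ?_⟩
    rintro z ⟨⟨e1, e2⟩, ⟨e3, -⟩, e5, -⟩
    have hz1 : |z.1| ≤ |X0| + |X1| := by
      rw [abs_le]
      constructor
      · linarith [neg_abs_le X0, abs_nonneg X1]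
      · linarith [le_abs_self X1, abs_nonneg X0]
    have hz2 : |z.2| ≤ |rk| + |s1| * (|X0| + |X1| + |k|) +
        (|ql| + |t1| * (|X0| + |X1| + |l|)) := by
      have b1 : |s1 * (z.1 - k)| ≤ |s1| * (|X0| + |X1| + |k|) := by
        rw [abs_mul]
        exact mul_le_mul_of_nonneg_left ((abs_sub _ _).trans (by linarith)) (abs_nonneg _)
      have b2 : |t1 * (z.1 - l)| ≤ |t1| * (|X0| + |X1| + |l|) := by
        rw [abs_mul]
        exact mul_le_mul_of_nonneg_left ((abs_sub _ _).trans (by linarith)) (abs_nonneg _)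
      have b3 := abs_le.mp b1
      have b4 := abs_le.mp b2
      rw [abs_le]
      constructor
      · linarith [neg_abs_le ql, abs_nonneg rk, abs_nonneg (s1 * (z.1 - k))]
      · linarith [le_abs_self rk, abs_nonneg ql, abs_nonneg (t1 * (z.1 - l))]
    rw [Prod.norm_def, Real.norm_eq_abs, Real.norm_eq_abs]
    exact max_le_max hz1 hz2

end hex

end Pool.Agent.Helper88.PH
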