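import Pool.Agent.Helper88.PH.Gable

/-!
# MP_8bf717, upper bounds: the gable lemma
-/

set_option autoImplicit false

open MeasureTheory Set

namespace Pool.Agent.Helper88.PH

open Pool.Agent.Helper37.PH

/-- affine roofs -/
theorem strict_affine {X0 X1 : ℝ} (hX : X0 < X1) (a b η : ℝ) (hη : 0 < η) :
    ∃ k rk s1 s2 : ℝ, X0 < k ∧ k < X1 ∧ s2 < s1 ∧
      (∀ x, X0 ≤ x → x ≤ X1 → a + b * x + η ≤ min (rk + s1 * (x - k)) (rk + s2 * (x - k))) ∧
      (∀ x, X0 ≤ x → x ≤ X1 → min (rk + s1 * (x - k)) (rk + s2 * (x - k)) ≤ a + b * x + 2 * η) ∧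
      rk + s1 * (X0 - k) = a + b * X0 + η ∧ rk + s2 * (X1 - k) = a + b * X1 + η := by
  set d := (X1 - X0) / 2 with hd
  have hd0 : 0 < d := by rw [hd]; linarith
  have hX0 : X0 = (X0 + X1) / 2 - d := by rw [hd]; ring
  have hX1 : X1 = (X0 + X1) / 2 + d := by rw [hd]; ring
  set k := (X0 + X1) / 2 with hk
  have hη1 : η / d * d = η := by field_simp
  have hηd : 0 < η / d := div_pos hη hd0
  refine ⟨k, a + b * k + 2 * η, b + η / d, b - η / d, by linarith, by linarith, by linarith,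
    ?_, ?_, ?_, ?_⟩
  · intro x h0 h1
    rw [hX0] at h0
    rw [hX1] at h1
    apply le_min
    · nlinarith
    · nlinarith
  · intro x h0 h1
    rcases le_total x k with h | h
    · refine (min_le_left _ _).trans ?_
      nlinarith
    · refine (min_le_right _ _).trans ?_
      nlinarith
  · rw [hX0]
    linear_combination (-1 : ℝ) * hη1
  · rw [hX1]
    linear_combination (-1 : ℝ) * hη1

/-- roofs -/
theorem strict_roof {X0 X1 : ℝ} (hX : X0 < X1) (a1 b1 a2 b2 η : ℝ) (hη : 0 < η) :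
    ∃ k rk s1 s2 : ℝ, X0 < k ∧ k < X1 ∧ s2 < s1 ∧
      (∀ x, X0 ≤ x → x ≤ X1 → min (a1 + b1 * x) (a2 + b2 * x) + η ≤
        min (rk + s1 * (x - k)) (rk + s2 * (x - k))) ∧
      (∀ x, X0 ≤ x → x ≤ X1 → min (rk + s1 * (x - k)) (rk + s2 * (x - k)) ≤
        min (a1 + b1 * x) (a2 + b2 * x) + 2 * η) ∧
      rk + s1 * (X0 - k) = min (a1 + b1 * X0) (a2 + b2 * X0) + η ∧
      rk + s2 * (X1 - k) = min (a1 + b1 * X1) (a2 + b2 * X1) + η := by
  -- the four cases
  have aff1 : a1 + b1 * X0 ≤ a2 + b2 * X0 → a1 + b1 * X1 ≤ a2 + b2 * X1 →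
      ∀ x, X0 ≤ x → x ≤ X1 → min (a1 + b1 * x) (a2 + b2 * x) = a1 + b1 * x := by
    intro e0 e1 x h0 h1
    apply min_eq_left
    have f0 : 0 ≤ (X1 - x) * ((a2 + b2 * X0) - (a1 + b1 * X0)) :=
      mul_nonneg (by linarith) (by linarith)
    have f1 : 0 ≤ (x - X0) * ((a2 + b2 * X1) - (a1 + b1 * X1)) :=
      mul_nonneg (by linarith) (by linarith)
    have f2 : (X1 - X0) * ((a2 + b2 * x) - (a1 + b1 * x)) =
      (X1 - x) * ((a2 + b2 * X0) - (a1 + b1 * X0)) +
      (x - X0) * ((a2 + b2 * X1) - (a1 + b1 * X1)) := by ring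
    have f3 : 0 ≤ (X1 - X0) * ((a2 + b2 * x) - (a1 + b1 * x)) := by rw [f2]; linarith
    have := nonneg_of_mul_nonneg_right f3 (by linarith : (0 : ℝ) < X1 - X0)
    linarith
  have aff2 : a2 + b2 * X0 ≤ a1 + b1 * X0 → a2 + b2 * X1 ≤ a1 + b1 * X1 →
      ∀ x, X0 ≤ x → x ≤ X1 → min (a1 + b1 * x) (a2 + b2 * x) = a2 + b2 * x := by
    intro e0 e1 x h0 h1
    apply min_eq_right
    have f0 : 0 ≤ (X1 - x) * ((a1 + b1 * X0) - (a2 + b2 * X0)) :=
      mul_nonneg (by linarith) (by linarith)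
    have f1 : 0 ≤ (x - X0) * ((a1 + b1 * X1) - (a2 + b2 * X1)) :=
      mul_nonneg (by linarith) (by linarith)
    have f2 : (X1 - X0) * ((a1 + b1 * x) - (a2 + b2 * x)) =
      (X1 - x) * ((a1 + b1 * X0) - (a2 + b2 * X0)) +
      (x - X0) * ((a1 + b1 * X1) - (a2 + b2 * X1)) := by ring
    have f3 : 0 ≤ (X1 - X0) * ((a1 + b1 * x) - (a2 + b2 * x)) := by rw [f2]; linarith
    have := nonneg_of_mul_nonneg_right f3 (by linarith : (0 : ℝ) < X1 - X0)
    linarith
  have fin : ∀ a b : ℝ, (∀ x, X0 ≤ x → x ≤ X1 → min (a1 + b1 * x) (a2 + b2 * x) = a + b * x) →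
      ∃ k rk s1 s2 : ℝ, X0 < k ∧ k < X1 ∧ s2 < s1 ∧
      (∀ x, X0 ≤ x → x ≤ X1 → min (a1 + b1 * x) (a2 + b2 * x) + η ≤
        min (rk + s1 * (x - k)) (rk + s2 * (x - k))) ∧
      (∀ x, X0 ≤ x → x ≤ X1 → min (rk + s1 * (x - k)) (rk + s2 * (x - k)) ≤
        min (a1 + b1 * x) (a2 + b2 * x) + 2 * η) ∧
      rk + s1 * (X0 - k) = min (a1 + b1 * X0) (a2 + b2 * X0) + η ∧
      rk + s2 * (X1 - k) = min (a1 + b1 * X1) (a2 + b2 * X1) + η := by
    intro a b hab
    obtain ⟨k, rk, s1, s2, g1, g2, g3, g4, g5, g6, g7⟩ := strict_affine hX a b η hη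
    refine ⟨k, rk, s1, s2, g1, g2, g3, ?_, ?_, ?_, ?_⟩
    · intro x h0 h1
      rw [hab x h0 h1]
      exact g4 x h0 h1
    · intro x h0 h1
      rw [hab x h0 h1]
      exact g5 x h0 h1
    · rw [hab X0 le_rfl hX.le]
      exact g6
    · rw [hab X1 hX.le le_rfl]
      exact g7
  -- a kink strictly inside
  have kink : ∀ a1 b1 a2 b2 : ℝ, a1 + b1 * X0 < a2 + b2 * X0 → a2 + b2 * X1 < a1 + b1 * X1 →
      ∃ k rk s1 s2 : ℝ, X0 < k ∧ k < X1 ∧ s2 < s1 ∧
      (∀ x, X0 ≤ x → x ≤ X1 → min (a1 + b1 * x) (a2 + b2 * x) + η ≤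
        min (rk + s1 * (x - k)) (rk + s2 * (x - k))) ∧
      (∀ x, X0 ≤ x → x ≤ X1 → min (rk + s1 * (x - k)) (rk + s2 * (x - k)) ≤
        min (a1 + b1 * x) (a2 + b2 * x) + 2 * η) ∧
      rk + s1 * (X0 - k) = min (a1 + b1 * X0) (a2 + b2 * X0) + η ∧
      rk + s2 * (X1 - k) = min (a1 + b1 * X1) (a2 + b2 * X1) + η := by
    intro a1 b1 a2 b2 e0 e1
    have hb : b2 < b1 := by
      by_contra hc
      push Not at hc
      nlinarith
    have hb0 : 0 < b1 - b2 := by linarith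
    set k := (a2 - a1) / (b1 - b2) with hk
    have hk1 : (b1 - b2) * k = a2 - a1 := by rw [hk]; field_simp
    have hk0 : X0 < k := by
      by_contra hc
      push Not at hc
      nlinarith
    have hk2 : k < X1 := by
      by_contra hc
      push Not at hc
      nlinarith
    have heq : ∀ x, min ((a1 + b1 * k + η) + b1 * (x - k)) ((a1 + b1 * k + η) + b2 * (x - k)) =
        min (a1 + b1 * x) (a2 + b2 * x) + η := by
      intro x
      rw [← min_add_add_right]
      congr 1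
      · ring
      · linear_combination hk1
    refine ⟨k, a1 + b1 * k + η, b1, b2, hk0, hk2, hb, ?_, ?_, ?_, ?_⟩
    · intro x _ _
      rw [heq]
    · intro x _ _
      rw [heq]
      linarith
    · rw [min_eq_left e0.le]
      ring
    · rw [min_eq_right e1.le]
      linear_combination hk1
  rcases lt_trichotomy (a1 + b1 * X0) (a2 + b2 * X0) with e0 | e0 | e0
  · rcases lt_or_ge (a2 + b2 * X1) (a1 + b1 * X1) with e1 | e1
    · exact kink a1 b1 a2 b2 e0 e1
    · exact fin a1 b1 (aff1 e0.le e1)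
  · rcases le_total (a2 + b2 * X1) (a1 + b1 * X1) with e1 | e1
    · exact fin a2 b2 (aff2 e0.ge e1)
    · exact fin a1 b1 (aff1 e0.le e1)
  · rcases lt_or_ge (a1 + b1 * X1) (a2 + b2 * X1) with e1 | e1
    · obtain ⟨k, rk, s1, s2, g1, g2, g3, g4, g5, g6, g7⟩ := kink a2 b2 a1 b1 e0 e1
      refine ⟨k, rk, s1, s2, g1, g2, g3, ?_, ?_, ?_, ?_⟩
      · intro x h0 h1
        rw [min_comm (a1 + b1 * x)]
        exact g4 x h0 h1
      · intro x h0 h1
        rw [min_comm (a1 + b1 * x)]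
        exact g5 x h0 h1
      · rw [min_comm (a1 + b1 * X0)]
        exact g6
      · rw [min_comm (a1 + b1 * X1)]
        exact g7
    · exact fin a2 b2 (aff2 e0.le e1)

/-- The gable lemma: the region between a two-piece roof and a two-piece floor over `[X0, X1]`
with walls of equal height is contained in p-hexagons of almost the same area. -/
theorem gable {X0 X1 : ℝ} (hX : X0 < X1) (a1 b1 a2 b2 c1 d1 c2 d2 : ℝ)
    (h0 : max (c1 + d1 * X0) (c2 + d2 * X0) ≤ min (a1 + b1 * X0) (a2 + b2 * X0))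
    (heq : min (a1 + b1 * X0) (a2 + b2 * X0) - max (c1 + d1 * X0) (c2 + d2 * X0) =
      min (a1 + b1 * X1) (a2 + b2 * X1) - max (c1 + d1 * X1) (c2 + d2 * X1))
    {ε : ℝ} (hε : 0 < ε) :
    ∃ P : Set (ℝ × ℝ), IsPHexagon P ∧
      {q : ℝ × ℝ | (X0 ≤ q.1 ∧ q.1 ≤ X1) ∧ max (c1 + d1 * q.1) (c2 + d2 * q.1) ≤ q.2 ∧
        q.2 ≤ min (a1 + b1 * q.1) (a2 + b2 * q.1)} ⊆ P ∧
      volume P ≤ ENNReal.ofReal (∫ x in X0..X1,
        (min (a1 + b1 * x) (a2 + b2 * x) - max (c1 + d1 * x) (c2 + d2 * x))) +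
        ENNReal.ofReal ε := by
  have hd : 0 < X1 - X0 := by linarith
  set η := ε / (6 * (X1 - X0)) with hηd
  have hη : 0 < η := by rw [hηd]; positivity
  have hη6 : 6 * η * (X1 - X0) = ε := by rw [hηd]; field_simp
  obtain ⟨k, rk, s1, s2, g1, g2, g3, g4, g5, g6, g7⟩ := strict_roof hX a1 b1 a2 b2 η hη
  obtain ⟨l, ml, u1, u2, f1, f2, f3, f4, f5, f6, f7⟩ :=
    strict_roof hX (-c1) (-d1) (-c2) (-d2) η hη
  have hneg : ∀ x : ℝ, min (-c1 + -d1 * x) (-c2 + -d2 * x) = -max (c1 + d1 * x) (c2 + d2 * x) := by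
    intro x
    rw [← min_neg_neg]
    congr 1 <;> ring
  have r1 : -ml + -u1 * (X0 - l) < rk + s1 * (X0 - k) := by
    rw [hneg] at f6
    have : -ml + -u1 * (X0 - l) = -(ml + u1 * (X0 - l)) := by ring
    rw [this, f6, g6]
    linarith
  have r2 : (rk + s1 * (X0 - k)) - (-ml + -u1 * (X0 - l)) =
      (rk + s2 * (X1 - k)) - (-ml + -u2 * (X1 - l)) := by
    rw [hneg] at f6 f7
    have e1 : -ml + -u1 * (X0 - l) = -(ml + u1 * (X0 - l)) := by ring
    have e2 : -ml + -u2 * (X1 - l) = -(ml + u2 * (X1 - l)) := by ring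
    rw [e1, e2, f6, f7, g6, g7]
    linarith
  have haux := hex_aux (ql := -ml) (t1 := -u1) (t2 := -u2) g1 g2 f1 f2 g3 (by linarith) r1 r2
  refine ⟨hexR X0 X1 k l rk (-ml) s1 s2 (-u1) (-u2),
    hex_isPHexagon g1 g2 f1 f2 g3 (by linarith) r1 r2, ?_, ?_⟩
  · rintro q ⟨⟨h1, h2⟩, h3, h4⟩
    have e1 := g4 q.1 h1 h2
    have e2 := f4 q.1 h1 h2
    rw [hneg] at e2
    have e3 : q.2 ≤ min (rk + s1 * (q.1 - k)) (rk + s2 * (q.1 - k)) := by linarith
    have e4 : -q.2 ≤ min (ml + u1 * (q.1 - l)) (ml + u2 * (q.1 - l)) := by linarith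
    rw [le_min_iff] at e3 e4
    exact ⟨⟨h1, h2⟩, ⟨e3.1, e3.2⟩, by linarith [e4.1], by linarith [e4.2]⟩
  · have hsub : hexR X0 X1 k l rk (-ml) s1 s2 (-u1) (-u2) ⊆
        regionBetween (fun x => max (c1 + d1 * x) (c2 + d2 * x) - 3 * η)
          (fun x => min (a1 + b1 * x) (a2 + b2 * x) + 3 * η) (Icc X0 X1) := by
      rintro ⟨x, y⟩ ⟨⟨h1, h2⟩, ⟨h3, h4⟩, h5, h6⟩
      simp only at h1 h2 h3 h4 h5 h6
      have e1 := g5 x h1 h2
      have e2 := f5 x h1 h2
      rw [hneg] at e2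
      have e3 : y ≤ min (rk + s1 * (x - k)) (rk + s2 * (x - k)) := le_min h3 h4
      have e4 : -y ≤ min (ml + u1 * (x - l)) (ml + u2 * (x - l)) :=
        le_min (by linarith) (by linarith)
      refine ⟨⟨h1, h2⟩, ?_, ?_⟩
      · simp only
        linarith
      · simp only
        linarith
    refine (measure_mono hsub).trans ?_
    have hcf : Continuous fun x => max (c1 + d1 * x) (c2 + d2 * x) - 3 * η := by fun_prop
    have hcg : Continuous fun x => min (a1 + b1 * x) (a2 + b2 * x) + 3 * η := by fun_prop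
    have hle : ∀ x ∈ Icc X0 X1, max (c1 + d1 * x) (c2 + d2 * x) - 3 * η ≤
        min (a1 + b1 * x) (a2 + b2 * x) + 3 * η := by
      rintro x ⟨h1, h2⟩
      have e1 := g5 x h1 h2
      have e2 := f5 x h1 h2
      rw [hneg] at e2
      obtain ⟨w1, w2, w3, w4⟩ := haux x h1 h2
      have e3 : -(min (ml + u1 * (x - l)) (ml + u2 * (x - l))) ≤
          min (rk + s1 * (x - k)) (rk + s2 * (x - k)) := by
        apply le_min
        · rw [neg_le, le_min_iff]
          constructor <;> linarith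
        · rw [neg_le, le_min_iff]
          constructor <;> linarith
      linarith
    have hvol := volume_regionBetween_eq_integral (μ := volume)
      (f := fun x => max (c1 + d1 * x) (c2 + d2 * x) - 3 * η)
      (g := fun x => min (a1 + b1 * x) (a2 + b2 * x) + 3 * η) (s := Icc X0 X1)
      (hcf.integrableOn_Icc) (hcg.integrableOn_Icc) measurableSet_Icc hle
    rw [Measure.volume_eq_prod, hvol, ← ENNReal.ofReal_add]
    · apply ENNReal.ofReal_le_ofReal
      rw [integral_Icc_eq_integral_Ioc, ← intervalIntegral.integral_of_le hX.le]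
      have e5 : (fun x => ((fun x => min (a1 + b1 * x) (a2 + b2 * x) + 3 * η) -
          fun x => max (c1 + d1 * x) (c2 + d2 * x) - 3 * η) x) = fun x =>
          (min (a1 + b1 * x) (a2 + b2 * x) - max (c1 + d1 * x) (c2 + d2 * x)) + 6 * η := by
        ext x
        simp only [Pi.sub_apply]
        ring
      rw [e5, intervalIntegral.integral_add]
      · rw [intervalIntegral.integral_const, smul_eq_mul]
        linarith
      · apply Continuous.intervalIntegrable
        fun_prop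
      · exact intervalIntegrable_const
    · apply intervalIntegral.integral_nonneg hX.le
      rintro x ⟨h1, h2⟩
      -- roof minus floor is concave and nonnegative at the ends
      have w0 := h0
      have w1 : max (c1 + d1 * X1) (c2 + d2 * X1) ≤ min (a1 + b1 * X1) (a2 + b2 * X1) := by
        linarith
      rw [max_le_iff, le_min_iff, le_min_iff] at w0 w1
      have key : ∀ a b c d : ℝ, c + d * X0 ≤ a + b * X0 → c + d * X1 ≤ a + b * X1 →
          c + d * x ≤ a + b * x := by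
        intro a b c d e0 e1
        have p0 : 0 ≤ (X1 - x) * ((a + b * X0) - (c + d * X0)) :=
          mul_nonneg (by linarith) (by linarith)
        have p1 : 0 ≤ (x - X0) * ((a + b * X1) - (c + d * X1)) :=
          mul_nonneg (by linarith) (by linarith)
        have p2 : (X1 - X0) * ((a + b * x) - (c + d * x)) =
          (X1 - x) * ((a + b * X0) - (c + d * X0)) +
          (x - X0) * ((a + b * X1) - (c + d * X1)) := by ring
        have p3 : 0 ≤ (X1 - X0) * ((a + b * x) - (c + d * x)) := by rw [p2]; linarith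
        have := nonneg_of_mul_nonneg_right p3 hd
        linarith
      rw [sub_nonneg, max_le_iff, le_min_iff, le_min_iff]
      exact ⟨⟨key _ _ _ _ w0.1.1 w1.1.1, key _ _ _ _ w0.1.2 w1.1.2⟩,
        key _ _ _ _ w0.2.1 w1.2.1, key _ _ _ _ w0.2.2 w1.2.2⟩
    · exact hε.le

end Pool.Agent.Helper88.PH
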