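import Pool.Agent.Helper88.PH.CaseIII

/-!
# MP_8bf717, lower bound: every configuration satisfies the bound
-/

set_option autoImplicit false

open MeasureTheory Set

namespace Pool.Agent.Helper88.PH

open Pool.Agent.Helper37.PH

variable {T D : ℝ → ℝ} {M : ℝ} {v : Fin 6 → ℝ × ℝ} {R : Set (ℝ × ℝ)} {c s : Fin 6 → ℝ}

/-- the roof is `v1 v2 v3`, walls on both sides of the strip -/
theorem Cfg.case_i' (h : Cfg T D M v R) (hl : LD v c s) (A1 : Ab T v 1) (A2 : Ab T v 2)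
    (B4 : Be D v 4) (B5 : Be D v 5) (hx2 : (v 2).1 ∈ Ioo (0 : ℝ) 1)
    (hx5 : (v 5).1 ∈ Ioo (0 : ℝ) 1) (hX0 : (v 0).1 ≤ 0) (hX1 : 1 ≤ (v 3).1) :
    ENNReal.ofReal M ≤ volume R := by
  by_cases hs : s 1 ≤ s 2
  · exact h.i_convex hl A1 A2 B4 B5 hx2 hX0 hX1 hs
  by_cases hs' : s 4 ≤ s 5
  · rw [← vol_fl h.cpt]
    refine (h.flip.rev 1 (Or.inl rfl)).i_convex (hl.flip.rev 1 (Or.inl rfl))
      (ab_rev.mpr (ab_fl.mpr B5)) (ab_rev.mpr (ab_fl.mpr B4)) (be_rev.mpr (be_fl.mpr A2))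
      (be_rev.mpr (be_fl.mpr A1)) hx5 ?_ ?_ ?_
    · show (v 1).1 ≤ 0
      rw [← h.w0]
      exact hX0
    · show 1 ≤ (v 4).1
      rw [← h.w3]
      exact hX1
    · show -s 5 ≤ -s 4
      linarith
  push Not at hs hs'
  exact h.i_main hl A1 A2 B4 B5 hx2 hx5 hX0 hX1 hs hs'

theorem Cfg.case_i (h : Cfg T D M v R) (hl : LD v c s) (A1 : Ab T v 1) (A2 : Ab T v 2)
    (B4 : Be D v 4) (B5 : Be D v 5) : ENNReal.ofReal M ≤ volume R := by
  by_cases hx2 : (v 2).1 ∈ Ioo (0 : ℝ) 1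
  swap
  · exact h.i_span hl A1 A2 B4 B5 hx2
  by_cases hx5 : (v 5).1 ∈ Ioo (0 : ℝ) 1
  swap
  · rw [← vol_fl h.cpt]
    exact (h.flip.rev 1 (Or.inl rfl)).i_span (hl.flip.rev 1 (Or.inl rfl))
      (ab_rev.mpr (ab_fl.mpr B5)) (ab_rev.mpr (ab_fl.mpr B4)) (be_rev.mpr (be_fl.mpr A2))
      (be_rev.mpr (be_fl.mpr A1)) hx5
  have hX0 := h.X0_out (Or.inl ⟨A1, B5⟩)
  have hX1 := h.X1_out (Or.inl ⟨A2, B4⟩)
  have hx20 := hx2.1
  have hx21 := hx2.2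
  have key : ∀ x, 0 < x → x < 1 → x ∈ uIcc (v 1).1 (v 2).1 ∨ x ∈ uIcc (v 2).1 (v 3).1 := by
    intro x k0 k1
    obtain ⟨i, y, hy, hT⟩ := h.cover k0 k1
    rcases h.hA12 B4 B5 i ⟨_, hy, k0, k1, hT⟩ with rfl | rfl
    · exact Or.inl ((hl 1 (by decide) (by decide) _).mp hy).1
    · exact Or.inr ((hl 2 (by decide) (by decide) _).mp hy).1
  simp only [mem_Ioo, not_and_or, not_lt] at hX0 hX1
  have h01 : (v 1).1 = (v 0).1 := h.w0.symm
  rcases hX0 with hX0 | hX0 <;> rcases hX1 with hX1 | hX1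
  · exfalso
    have := key (((v 2).1 + 1) / 2) (by linarith) (by linarith)
    rw [h01, uIcc_of_le (by linarith), uIcc_of_ge (by linarith), mem_Icc, mem_Icc] at this
    rcases this with h5 | h5 <;> linarith [h5.1, h5.2]
  · exact h.case_i' hl A1 A2 B4 B5 hx2 hx5 hX0 hX1
  · refine (h.rev 4 (Or.inr rfl)).case_i' (hl.rev 4 (Or.inr rfl)) (ab_rev.mpr A2) (ab_rev.mpr A1)
      (be_rev.mpr B5) (be_rev.mpr B4) hx2 hx5 ?_ ?_
    · show (v 4).1 ≤ 0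
      rw [← h.w3]
      exact hX1
    · show 1 ≤ (v 1).1
      rw [h01]
      exact hX0
  · exfalso
    have := key ((v 2).1 / 2) (by linarith) (by linarith)
    rw [h01, uIcc_of_ge (by linarith), uIcc_of_le (by linarith), mem_Icc, mem_Icc] at this
    rcases this with h5 | h5 <;> linarith [h5.1, h5.2]

theorem Cfg.case_iii (h : Cfg T D M v R) (hl : LD v c s) (A1 : Ab T v 1) (A5 : Ab T v 5)
    (B2 : Be D v 2) (B4 : Be D v 4) : ENNReal.ofReal M ≤ volume R := by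
  by_cases hX0 : (v 0).1 ∈ Ioo (0 : ℝ) 1
  swap
  · exact h.iii_span hl A1 A5 B2 B4 hX0
  by_cases hX1 : (v 3).1 ∈ Ioo (0 : ℝ) 1
  swap
  · rw [← vol_fl h.cpt]
    exact ((h.flip.rev 1 (Or.inl rfl)).rev 4 (Or.inr rfl)).iii_span
      ((hl.flip.rev 1 (Or.inl rfl)).rev 4 (Or.inr rfl))
      (ab_rev.mpr (ab_rev.mpr (ab_fl.mpr B4))) (ab_rev.mpr (ab_rev.mpr (ab_fl.mpr B2)))
      (be_rev.mpr (be_rev.mpr (be_fl.mpr A5))) (be_rev.mpr (be_rev.mpr (be_fl.mpr A1))) hX1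
  have hx2 := h.vert_out 1 (Or.inl ⟨A1, B2⟩)
  have hx5 := h.vert_out 4 (Or.inr ⟨B4, A5⟩)
  have h00 := hX0.1
  have h01 := hX0.2
  have hw : (v 1).1 = (v 0).1 := h.w0.symm
  have key : ∀ x, 0 < x → x < 1 → x = (v 0).1 ∨ x ∈ uIcc (v 0).1 (v 2).1 ∨
      x ∈ uIcc (v 5).1 (v 0).1 := by
    intro x k0 k1
    obtain ⟨i, y, hy, hT⟩ := h.cover k0 k1
    rcases h.hA15 B2 B4 i ⟨_, hy, k0, k1, hT⟩ with rfl | rfl | rfl
    · exact Or.inl (h.wall0 hy)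
    · have := ((hl 1 (by decide) (by decide) _).mp hy).1
      rw [hw] at this
      exact Or.inr (Or.inl this)
    · exact Or.inr (Or.inr ((hl 5 (by decide) (by decide) _).mp hy).1)
  have hx2' : (v 2).1 ≤ 0 ∨ 1 ≤ (v 2).1 := by
    have h5 : (v 2).1 ∉ Ioo (0 : ℝ) 1 := hx2
    simpa only [mem_Ioo, not_and_or, not_lt] using h5
  have hx5' : (v 5).1 ≤ 0 ∨ 1 ≤ (v 5).1 := by
    have h5 : (v 5).1 ∉ Ioo (0 : ℝ) 1 := hx5
    simpa only [mem_Ioo, not_and_or, not_lt] using h5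
  rcases hx5' with hx5' | hx5' <;> rcases hx2' with hx2' | hx2'
  · exfalso
    have := key (((v 0).1 + 1) / 2) (by linarith) (by linarith)
    rw [uIcc_of_ge (by linarith), uIcc_of_le (by linarith), mem_Icc, mem_Icc] at this
    rcases this with h5 | h5 | h5
    · linarith
    · linarith [h5.1, h5.2]
    · linarith [h5.1, h5.2]
  · exact h.iii_main hl A1 A5 B2 B4 hX0 hX1 hx5' hx2'
  · refine (h.rev 1 (Or.inl rfl)).iii_main (hl.rev 1 (Or.inl rfl)) (ab_rev.mpr A5)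
      (ab_rev.mpr A1) (be_rev.mpr B4) (be_rev.mpr B2) ?_ ?_ hx2' hx5'
    · show (v 1).1 ∈ Ioo (0 : ℝ) 1
      rw [← h.w0]
      exact hX0
    · show (v 4).1 ∈ Ioo (0 : ℝ) 1
      rw [← h.w3]
      exact hX1
  · exfalso
    have := key ((v 0).1 / 2) (by linarith) (by linarith)
    rw [uIcc_of_le (by linarith), uIcc_of_ge (by linarith), mem_Icc, mem_Icc] at this
    rcases this with h5 | h5 | h5
    · linarith
    · linarith [h5.1, h5.2]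
    · linarith [h5.1, h5.2]

/-- every configuration satisfies the bound -/
theorem Cfg.bound (h : Cfg T D M v R) : ENNReal.ofReal M ≤ volume R := by
  obtain ⟨c, s, hl⟩ := h.lines
  by_contra hg
  have SA : ∀ i : Fin 6, i ≠ 0 → i ≠ 3 → ¬ ∀ j, j ≠ 0 → j ≠ 3 → Ab T v j → j = i :=
    fun i h0 h3 hh => hg (h.single hl i h0 h3 hh)
  have SB : ∀ i : Fin 6, i ≠ 0 → i ≠ 3 → ¬ ∀ j, j ≠ 0 → j ≠ 3 → Be D v j → j = i := by
    intro i h0 h3 hh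
    apply hg
    rw [← vol_fl h.cpt]
    exact h.flip.single hl.flip i h0 h3 fun j j0 j3 hj => hh j j0 j3 (ab_fl.mp hj)
  have allA : ∀ i : Fin 6, i ≠ 0 → i ≠ 3 → ∃ j : Fin 6, j ≠ 0 ∧ j ≠ 3 ∧ j ≠ i ∧ Ab T v j := by
    intro i h0 h3
    have := SA i h0 h3
    push Not at this
    obtain ⟨j, j0, j3, hj, hji⟩ := this
    exact ⟨j, j0, j3, hji, hj⟩
  have allB : ∀ i : Fin 6, i ≠ 0 → i ≠ 3 → ∃ j : Fin 6, j ≠ 0 ∧ j ≠ 3 ∧ j ≠ i ∧ Be D v j := by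
    intro i h0 h3
    have := SB i h0 h3
    push Not at this
    obtain ⟨j, j0, j3, hj, hji⟩ := this
    exact ⟨j, j0, j3, hji, hj⟩
  have split : ∀ (P : Fin 6 → Prop) (i : Fin 6), (∃ j : Fin 6, j ≠ 0 ∧ j ≠ 3 ∧ j ≠ i ∧ P j) →
      (1 ≠ i ∧ P 1) ∨ (2 ≠ i ∧ P 2) ∨ (4 ≠ i ∧ P 4) ∨ (5 ≠ i ∧ P 5) := by
    rintro P i ⟨j, j0, j3, ji, hj⟩
    fin_cases j
    · exact absurd rfl j0
    · exact Or.inl ⟨ji, hj⟩
    · exact Or.inr (Or.inl ⟨ji, hj⟩)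
    · exact absurd rfl j3
    · exact Or.inr (Or.inr (Or.inl ⟨ji, hj⟩))
    · exact Or.inr (Or.inr (Or.inr ⟨ji, hj⟩))
  have F1 : Ab T v 2 ∨ Ab T v 4 ∨ Ab T v 5 := by
    have := split (Ab T v) 1 (allA 1 (by decide) (by decide))
    simpa using this
  have F2 : Ab T v 1 ∨ Ab T v 4 ∨ Ab T v 5 := by
    have := split (Ab T v) 2 (allA 2 (by decide) (by decide))
    simpa using this
  have F4 : Ab T v 1 ∨ Ab T v 2 ∨ Ab T v 5 := by
    have := split (Ab T v) 4 (allA 4 (by decide) (by decide))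
    simpa using this
  have F5 : Ab T v 1 ∨ Ab T v 2 ∨ Ab T v 4 := by
    have := split (Ab T v) 5 (allA 5 (by decide) (by decide))
    simpa using this
  have G1 : Be D v 2 ∨ Be D v 4 ∨ Be D v 5 := by
    have := split (Be D v) 1 (allB 1 (by decide) (by decide))
    simpa using this
  have G2 : Be D v 1 ∨ Be D v 4 ∨ Be D v 5 := by
    have := split (Be D v) 2 (allB 2 (by decide) (by decide))
    simpa using this
  have G4 : Be D v 1 ∨ Be D v 2 ∨ Be D v 5 := by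
    have := split (Be D v) 4 (allB 4 (by decide) (by decide))
    simpa using this
  have G5 : Be D v 1 ∨ Be D v 2 ∨ Be D v 4 := by
    have := split (Be D v) 5 (allB 5 (by decide) (by decide))
    simpa using this
  have N1 : ¬(Ab T v 1 ∧ Be D v 1) := fun hh => h.notBoth hh.1 hh.2
  have N2 : ¬(Ab T v 2 ∧ Be D v 2) := fun hh => h.notBoth hh.1 hh.2
  have N4 : ¬(Ab T v 4 ∧ Be D v 4) := fun hh => h.notBoth hh.1 hh.2
  have N5 : ¬(Ab T v 5 ∧ Be D v 5) := fun hh => h.notBoth hh.1 hh.2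
  have C1 : ¬(Ab T v 1 ∧ Ab T v 2 ∧ Be D v 4 ∧ Be D v 5) := by
    rintro ⟨k1, k2, k3, k4⟩
    exact hg (h.case_i hl k1 k2 k3 k4)
  have C2 : ¬(Ab T v 4 ∧ Ab T v 5 ∧ Be D v 1 ∧ Be D v 2) := by
    rintro ⟨k1, k2, k3, k4⟩
    apply hg
    rw [← vol_fl h.cpt]
    exact h.flip.case_i hl.flip (ab_fl.mpr k3) (ab_fl.mpr k4) (be_fl.mpr k1) (be_fl.mpr k2)
  have C3 : ¬(Ab T v 1 ∧ Ab T v 4 ∧ Be D v 2 ∧ Be D v 5) := by
    rintro ⟨k1, k2, k3, k4⟩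
    exact hg (h.case_ii hl k1 k2 k3 k4)
  have C4 : ¬(Ab T v 2 ∧ Ab T v 5 ∧ Be D v 1 ∧ Be D v 4) := by
    rintro ⟨k1, k2, k3, k4⟩
    apply hg
    rw [← vol_fl h.cpt]
    exact h.flip.case_ii hl.flip (ab_fl.mpr k3) (ab_fl.mpr k4) (be_fl.mpr k1) (be_fl.mpr k2)
  have C5 : ¬(Ab T v 1 ∧ Ab T v 5 ∧ Be D v 2 ∧ Be D v 4) := by
    rintro ⟨k1, k2, k3, k4⟩
    exact hg (h.case_iii hl k1 k2 k3 k4)
  have C6 : ¬(Ab T v 2 ∧ Ab T v 4 ∧ Be D v 1 ∧ Be D v 5) := by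
    rintro ⟨k1, k2, k3, k4⟩
    apply hg
    rw [← vol_fl h.cpt]
    exact h.flip.case_iii hl.flip (ab_fl.mpr k3) (ab_fl.mpr k4) (be_fl.mpr k1) (be_fl.mpr k2)
  clear allA allB split SA SB hg hl h
  by_cases a1 : Ab T v 1 <;> by_cases a2 : Ab T v 2 <;> by_cases a4 : Ab T v 4 <;>
    by_cases a5 : Ab T v 5 <;> simp only [a1, a2, a4, a5, true_and, false_and, not_true, not_false_iff,
      true_or, or_true, false_or, or_false] at * <;> tauto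

end Pool.Agent.Helper88.PH
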