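import Pool.Agent.Helper88.PH.Tools

/-!
# MP_8bf717, lower bound: symmetries of configurations
-/

set_option autoImplicit false

open MeasureTheory Set

namespace Pool.Agent.Helper88.PH

open Pool.Agent.Helper37.PH

/-- reflection in the horizontal axis -/
def flH : (ℝ × ℝ) ≃ₜ (ℝ × ℝ) := (Homeomorph.refl ℝ).prodCongr (Homeomorph.neg ℝ)

theorem flH_apply (q : ℝ × ℝ) : flH q = (q.1, -q.2) := rfl

@[simp] theorem flH_fst (q : ℝ × ℝ) : (flH q).1 = q.1 := rfl

@[simp] theorem flH_snd (q : ℝ × ℝ) : (flH q).2 = -q.2 := rfl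

@[simp] theorem flH_flH (q : ℝ × ℝ) : flH (flH q) = q := by
  apply Prod.ext <;> simp

theorem mem_seg_fl {p r q : ℝ × ℝ} : q ∈ segment ℝ (flH p) (flH r) ↔ flH q ∈ segment ℝ p r := by
  constructor
  · rintro ⟨a, b, ha, hb, hab, rfl⟩
    refine ⟨a, b, ha, hb, hab, ?_⟩
    apply Prod.ext
    · simp
    · simp only [Prod.snd_add, Prod.smul_snd, flH_snd, smul_eq_mul]
      ring
  · rintro ⟨a, b, ha, hb, hab, h⟩
    refine ⟨a, b, ha, hb, hab, ?_⟩
    have h1 := congrArg Prod.fst h
    have h2 := congrArg Prod.snd h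
    simp only [Prod.snd_add, Prod.smul_snd, flH_snd, smul_eq_mul, Prod.fst_add, Prod.smul_fst,
      flH_fst] at h1 h2
    apply Prod.ext
    · simp only [Prod.fst_add, Prod.smul_fst, flH_fst, smul_eq_mul]
      linarith
    · simp only [Prod.snd_add, Prod.smul_snd, flH_snd, smul_eq_mul]
      linarith

theorem side_fl (v : Fin 6 → ℝ × ℝ) (i : Fin 6) :
    side (fun i => flH (v i)) i = flH ⁻¹' side v i := by
  ext q
  exact mem_seg_fl

theorem hex_fl {v : Fin 6 → ℝ × ℝ} (h : IsHexagon v) : IsHexagon fun i => flH (v i) := by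
  refine ⟨?_, ?_⟩
  · intro i hc
    apply h.corner i
    rw [col_iff] at hc ⊢
    simp only [flH_fst, flH_snd] at hc
    linarith
  · intro i j h1 h2 h3
    rw [side_fl, side_fl]
    exact (h.disj i j h1 h2 h3).preimage _

theorem side_rev (v : Fin 6 → ℝ × ℝ) (k i : Fin 6) :
    side (fun i => v (k - i)) i = side v (k - i - 1) := by
  unfold side
  rw [segment_symm]
  show segment ℝ (v (k - (i + 1))) (v (k - i)) = _
  have h1 : k - (i + 1) = k - i - 1 := by decide +revert
  have h2 : k - i - 1 + 1 = k - i := by decide +revert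
  rw [h1, h2]

theorem hex_rev {v : Fin 6 → ℝ × ℝ} (h : IsHexagon v) (k : Fin 6) :
    IsHexagon fun i => v (k - i) := by
  refine ⟨?_, ?_⟩
  · intro i hc
    apply h.corner (k - i - 2)
    have e1 : ∀ k i : Fin 6, k - i - 2 + 1 = k - (i + 1) := by decide
    have e2 : ∀ k i : Fin 6, k - i - 2 = k - (i + 2) := by decide
    have e3 : ∀ k i : Fin 6, k - i - 2 + 2 = k - i := by decide
    rw [e1, e3, e2]
    rw [col_iff] at hc ⊢
    linarith
  · intro i j h1 h2 h3
    rw [side_rev, side_rev]
    apply h.disj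
    · intro h4
      apply h1
      have : ∀ i j k : Fin 6, k - j - 1 = k - i - 1 → j = i := by decide
      exact this i j k h4
    · intro h4
      apply h3
      have : ∀ i j k : Fin 6, k - j - 1 = k - i - 1 + 1 → i = j + 1 := by decide
      exact this i j k h4
    · intro h4
      apply h2
      have : ∀ i j k : Fin 6, k - i - 1 = k - j - 1 + 1 → j = i + 1 := by decide
      exact this i j k h4

variable {T D : ℝ → ℝ} {M : ℝ} {v : Fin 6 → ℝ × ℝ} {R : Set (ℝ × ℝ)}

theorem Data.flip (h : Data T D M) : Data D T M where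
  cT := h.cD
  cD := h.cT
  pos := fun x hx => by linarith [h.pos x hx]
  sT := h.sD
  sD := h.sT
  s1 := by linarith [h.s2]
  s2 := by linarith [h.s1]
  p := by
    intro p1 a1 p2 a2 q1 b1 q2 b2 x2 x5 XL XR h1 h2 h3 h4 h5 h6 h7 h8 h9 h10 h11 h12 h13 h14
    have := h.p q1 b1 q2 b2 p1 a1 p2 a2 x5 x2 XL XR h5 h6 h7 h8 h1 h2 h3 h4 h10 h9 h11 h12
      (by linarith) (by linarith)
    refine this.trans (le_of_eq ?_)
    congr 1
    ext x
    ring

theorem Cfg.flip (h : Cfg T D M v R) : Cfg D T M (fun i => flH (v i)) (flH ⁻¹' R) where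
  dat := h.dat.flip
  hex := hex_fl h.hex
  w0 := h.w0
  w3 := h.w3
  len := by
    simp only [flH_snd]
    have h1 : -(v 1).2 - -(v 0).2 = -((v 1).2 - (v 0).2) := by ring
    have h2 : -(v 4).2 - -(v 3).2 = -((v 4).2 - (v 3).2) := by ring
    rw [h1, h2, abs_neg, abs_neg]
    exact h.len
  cpt := by
    rw [flH.isCompact_preimage]
    exact h.cpt
  fr := by
    rw [← flH.preimage_frontier, h.fr, preimage_iUnion]
    congr 1
    ext1 i
    rw [side_fl]
  sub := by
    intro q h1 h2 h3 h4
    exact h.sub (flH q) h1 h2 (by simp; linarith) (by simp; linarith)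

theorem vol_fl (hR : IsCompact R) : volume (flH ⁻¹' R) = volume R := by
  have h1 : MeasurePreserving (flH : ℝ × ℝ → ℝ × ℝ) (volume : Measure (ℝ × ℝ)) volume := by
    have h2 := (MeasurePreserving.id (volume : Measure ℝ)).prod
      (Measure.measurePreserving_neg (volume : Measure ℝ))
    rw [Measure.volume_eq_prod]
    exact h2
  exact h1.measure_preimage hR.measurableSet.nullMeasurableSet

theorem Cfg.rev (h : Cfg T D M v R) (k : Fin 6) (hk : k = 1 ∨ k = 4) :
    Cfg T D M (fun i => v (k - i)) R where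
  dat := h.dat
  hex := hex_rev h.hex k
  w0 := by
    rcases hk with rfl | rfl
    · exact h.w0.symm
    · exact h.w3.symm
  w3 := by
    rcases hk with rfl | rfl
    · exact h.w3.symm
    · exact h.w0.symm
  len := by
    rcases hk with rfl | rfl
    · show |(v 0).2 - (v 1).2| = |(v 3).2 - (v 4).2|
      rw [abs_sub_comm, h.len, abs_sub_comm]
    · show |(v 3).2 - (v 4).2| = |(v 0).2 - (v 1).2|
      rw [abs_sub_comm, ← h.len, abs_sub_comm]
  cpt := h.cpt
  fr := by
    rw [h.fr]
    apply Set.Subset.antisymm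
    · apply iUnion_subset
      intro i
      refine subset_trans ?_ (subset_iUnion _ (k - i - 1))
      rw [side_rev]
      have : k - (k - i - 1) - 1 = i := by decide +revert
      rw [this]
    · apply iUnion_subset
      intro i
      rw [side_rev]
      exact subset_iUnion (side v) (k - i - 1)
  sub := h.sub

end Pool.Agent.Helper88.PH
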