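import Pool.Agent.Helper88.PH.Config

/-!
# MP_8bf717, lower bound: plane tools
-/

set_option autoImplicit false

open MeasureTheory Set

namespace Pool.Agent.Helper88.PH

open Pool.Agent.Helper37.PH

/-- three points of the plane are collinear iff a determinant vanishes -/
theorem col_iff (a b c : ℝ × ℝ) :
    Collinear ℝ {a, b, c} ↔ (b.1 - a.1) * (c.2 - a.2) = (b.2 - a.2) * (c.1 - a.1) := by
  have ha : a ∈ ({a, b, c} : Set (ℝ × ℝ)) := by simp
  rw [collinear_iff_of_mem ha]
  constructor
  · rintro ⟨w, hw⟩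
    obtain ⟨r, hr⟩ := hw b (by simp)
    obtain ⟨s, hs⟩ := hw c (by simp)
    have h1 : b.1 = r * w.1 + a.1 := by rw [hr]; simp
    have h2 : b.2 = r * w.2 + a.2 := by rw [hr]; simp
    have h3 : c.1 = s * w.1 + a.1 := by rw [hs]; simp
    have h4 : c.2 = s * w.2 + a.2 := by rw [hs]; simp
    rw [h1, h2, h3, h4]
    ring
  · intro h
    by_cases hba : b = a
    · refine ⟨c - a, ?_⟩
      intro p hp
      simp only [mem_insert_iff, mem_singleton_iff] at hp
      rcases hp with rfl | rfl | rfl
      · exact ⟨0, by simp⟩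
      · exact ⟨0, by simp [hba]⟩
      · exact ⟨1, by simp⟩
    · refine ⟨b - a, ?_⟩
      intro p hp
      simp only [mem_insert_iff, mem_singleton_iff] at hp
      rcases hp with rfl | rfl | rfl
      · exact ⟨0, by simp⟩
      · exact ⟨1, by simp⟩
      · by_cases h1 : b.1 = a.1
        · have h2 : b.2 - a.2 ≠ 0 := by
            intro h2
            exact hba (Prod.ext h1 (by linarith))
          refine ⟨(p.2 - a.2) / (b.2 - a.2), ?_⟩
          have h3 : p.1 = a.1 := by
            have h4 : (b.2 - a.2) * (p.1 - a.1) = 0 := by rw [← h, h1]; ring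
            rcases mul_eq_zero.mp h4 with h5 | h5
            · exact absurd h5 h2
            · linarith
          apply Prod.ext
          · simp [h1, h3]
          · simp only [vadd_eq_add, Prod.snd_add, Prod.smul_snd, Prod.snd_sub, smul_eq_mul]
            field_simp
            ring
        · have h2 : b.1 - a.1 ≠ 0 := fun h2 => h1 (by linarith)
          refine ⟨(p.1 - a.1) / (b.1 - a.1), ?_⟩
          apply Prod.ext
          · simp only [vadd_eq_add, Prod.fst_add, Prod.smul_fst, Prod.fst_sub, smul_eq_mul]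
            field_simp
            ring
          · simp only [vadd_eq_add, Prod.snd_add, Prod.smul_snd, Prod.snd_sub, smul_eq_mul]
            field_simp
            linarith

/-- a nonvertical segment is the graph of an affine function -/
theorem seg_graph {p q : ℝ × ℝ} (h : p.1 ≠ q.1) :
    ∃ c s : ℝ, ∀ z : ℝ × ℝ, z ∈ segment ℝ p q ↔ (z.1 ∈ uIcc p.1 q.1 ∧ z.2 = c + s * z.1) := by
  have h0 : q.1 - p.1 ≠ 0 := fun h2 => h (by linarith)
  refine ⟨p.2 - (q.2 - p.2) / (q.1 - p.1) * p.1, (q.2 - p.2) / (q.1 - p.1), ?_⟩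
  intro z
  constructor
  · rintro ⟨a, b, ha, hb, hab, rfl⟩
    constructor
    · have : (a • p + b • q).1 = a * p.1 + b * q.1 := by simp
      rw [this]
      have h1 : a = 1 - b := by linarith
      rw [h1]
      rcases le_total p.1 q.1 with hpq | hpq
      · rw [uIcc_of_le hpq]
        constructor <;> nlinarith
      · rw [uIcc_of_ge hpq]
        constructor <;> nlinarith
    · simp only [Prod.snd_add, Prod.smul_snd, Prod.fst_add, Prod.smul_fst, smul_eq_mul]
      have h1 : a = 1 - b := by linarith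
      rw [h1]
      field_simp
      ring
  · rintro ⟨h1, h2⟩
    have ht : 0 ≤ (z.1 - p.1) / (q.1 - p.1) ∧ (z.1 - p.1) / (q.1 - p.1) ≤ 1 := by
      rcases lt_or_gt_of_ne h with hpq | hpq
      · rw [uIcc_of_le hpq.le] at h1
        have h3 : 0 < q.1 - p.1 := by linarith
        refine ⟨div_nonneg (by linarith [h1.1]) h3.le, ?_⟩
        rw [div_le_one h3]
        linarith [h1.2]
      · rw [uIcc_of_ge hpq.le] at h1
        have h3 : q.1 - p.1 < 0 := by linarith
        refine ⟨div_nonneg_of_nonpos (by linarith [h1.2]) h3.le, ?_⟩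
        rw [div_le_one_of_neg h3]
        linarith [h1.1]
    refine ⟨1 - (z.1 - p.1) / (q.1 - p.1), (z.1 - p.1) / (q.1 - p.1), by linarith [ht.2], ht.1,
      by ring, ?_⟩
    apply Prod.ext
    · simp only [Prod.fst_add, Prod.smul_fst, smul_eq_mul]
      field_simp
      ring
    · simp only [Prod.snd_add, Prod.smul_snd, smul_eq_mul]
      rw [h2]
      field_simp
      ring

/-- a preconnected set which avoids the frontier and meets the set lies inside -/
theorem pre_sub {C R : Set (ℝ × ℝ)} (hC : IsPreconnected C) (hR : IsClosed R)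
    (hd : Disjoint C (frontier R)) (hm : (C ∩ R).Nonempty) : C ⊆ R := by
  have h1 : C ⊆ interior R ∪ Rᶜ := by
    intro x hx
    by_cases hxR : x ∈ R
    · left
      by_contra hi
      exact (Set.disjoint_left.mp hd hx) (by rw [hR.frontier_eq]; exact ⟨hxR, hi⟩)
    · right
      exact hxR
  have h2 : (C ∩ interior R).Nonempty := by
    obtain ⟨x, hx, hxR⟩ := hm
    rcases h1 hx with h | h
    · exact ⟨x, hx, h⟩
    · exact absurd hxR h
  exact (hC.subset_left_of_subset_union isOpen_interior hR.isOpen_compl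
    (disjoint_compl_right.mono_left interior_subset) h1 h2).trans interior_subset

/-- area under a graph -/
theorem vol_le {f g : ℝ → ℝ} (hf : Continuous f) (hg : Continuous g) {a b : ℝ} (hab : a ≤ b)
    {R : Set (ℝ × ℝ)}
    (hsub : ∀ q : ℝ × ℝ, a < q.1 → q.1 < b → f q.1 < q.2 → q.2 < g q.1 → q ∈ R) :
    ENNReal.ofReal (∫ x in a..b, (g x - f x)) ≤ volume R := by
  have hg' : Continuous fun x => max (f x) (g x) := hf.max hg
  have h1 : volume (regionBetween f (fun x => max (f x) (g x)) (Ioo a b))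
      = ENNReal.ofReal (∫ x in Ioo a b, (max (f x) (g x) - f x)) := by
    have := volume_regionBetween_eq_integral (μ := volume) (f := f)
      (g := fun x => max (f x) (g x)) (s := Ioo a b)
      ((hf.integrableOn_Icc (a := a) (b := b)).mono_set Ioo_subset_Icc_self)
      ((hg'.integrableOn_Icc (a := a) (b := b)).mono_set Ioo_subset_Icc_self)
      measurableSet_Ioo (fun x _ => le_max_left _ _)
    rw [Measure.volume_eq_prod]
    simpa using this
  have h2 : regionBetween f (fun x => max (f x) (g x)) (Ioo a b) ⊆ R := by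
    rintro ⟨x, y⟩ ⟨hx, hy1, hy2⟩
    simp only at hx hy1 hy2
    rcases lt_max_iff.mp hy2 with h | h
    · exact absurd h (not_lt.mpr hy1.le)
    · exact hsub (x, y) hx.1 hx.2 hy1 h
  refine le_trans ?_ (measure_mono h2)
  rw [h1, intervalIntegral.integral_of_le hab, integral_Ioc_eq_integral_Ioo]
  apply ENNReal.ofReal_le_ofReal
  apply setIntegral_mono_on
  · exact ((hg.sub hf).integrableOn_Icc (a := a) (b := b)).mono_set Ioo_subset_Icc_self
  · exact ((hg'.sub hf).integrableOn_Icc (a := a) (b := b)).mono_set Ioo_subset_Icc_self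
  · exact measurableSet_Ioo
  · intro x _
    linarith [le_max_right (f x) (g x)]

theorem conv_of (f : ℝ × ℝ → ℝ)
    (h : ∀ (u v : ℝ × ℝ) (a b : ℝ), a + b = 1 → f (a • u + b • v) = a * f u + b * f v) :
    Convex ℝ {q | 0 < f q} := by
  intro u hu v hv a b ha hb hab
  have hu : 0 < f u := hu
  have hv : 0 < f v := hv
  show 0 < f (a • u + b • v)
  rw [h u v a b hab]
  rcases ha.eq_or_lt with rfl | ha
  · have : b = 1 := by linarith
    rw [this]
    linarith
  · have := mul_pos ha hu
    have := mul_nonneg hb hv.le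
    linarith

theorem conv_lin (α β γ : ℝ) : Convex ℝ {q : ℝ × ℝ | 0 < α * q.1 + β * q.2 + γ} := by
  apply conv_of
  intro u v a b hab
  simp only [Prod.snd_add, Prod.smul_snd, Prod.fst_add, Prod.smul_fst, smul_eq_mul]
  linear_combination -γ * hab

/-- affine functions without zero in `(0,1)` have a constant sign there -/
theorem aff_sign {α β : ℝ} (h : ∀ x ∈ Ioo (0 : ℝ) 1, α + β * x ≠ 0) :
    (∀ x ∈ Ioo (0 : ℝ) 1, 0 < α + β * x) ∨ (∀ x ∈ Ioo (0 : ℝ) 1, α + β * x < 0) := by
  by_contra hc
  push Not at hc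
  obtain ⟨⟨x, hx, hx1⟩, y, hy, hy1⟩ := hc
  have hc : ContinuousOn (fun z => α + β * z) (uIcc x y) := by fun_prop
  have h0 : (0 : ℝ) ∈ uIcc (α + β * x) (α + β * y) := by
    rw [uIcc_of_le (by linarith)]
    exact ⟨hx1, hy1⟩
  obtain ⟨z, hz, hz0⟩ := intermediate_value_uIcc hc h0
  have hz2 : z ∈ Ioo (0 : ℝ) 1 := by
    rcases le_total x y with hxy | hxy
    · rw [uIcc_of_le hxy] at hz
      exact ⟨lt_of_lt_of_le hx.1 hz.1, lt_of_le_of_lt hz.2 hy.2⟩
    · rw [uIcc_of_ge hxy] at hz
      exact ⟨lt_of_lt_of_le hy.1 hz.1, lt_of_le_of_lt hz.2 hx.2⟩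
  exact h z hz2 hz0

end Pool.Agent.Helper88.PH
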